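import Pool.Agent.Work.MP_2738db_nt_Y.Interface
import Pool.Agent.Work.MP_2738db_nt_W.TwoLog2

set_option autoImplicit false

/-!
The determinant inequality for three logarithms (block CORE of theorem Y, helper82).
-/

namespace Pool.Agent.Work.MP_2738db_nt_Y.helper82

open Finset BigOperators
open Pool.Agent.Work.MP_2738db_nt_W (exists_minor)
open Pool.Agent.Work.MP_2738db_nt_Y

/-- factor out the denominators -/
lemma entry_clear {F : Type*} [Field F] (U S a b c₁ c₂ : F) (hS : S ≠ 0) (r₁ l L : ℕ)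
    (hl : l < L) :
    c₁ * c₂ * (U ^ r₁ * a * b) ^ l * S ^ (r₁ * (L - 1 - l)) =
      S ^ (r₁ * (L - 1)) * (c₁ * c₂ * ((U / S) ^ r₁ * a * b) ^ l) := by
  have h1 : r₁ * (L - 1) = r₁ * (L - 1 - l) + r₁ * l := by
    rw [← Nat.mul_add]; congr 1; omega
  rw [h1, pow_add, div_pow, mul_pow, mul_pow, mul_pow, mul_pow, div_pow, ← pow_mul, ← pow_mul]
  field_simp

theorem core : Stmt_Ze → Stmt_Det → Stmt_Core := by
  intro hze hdetS
  intro U S p q K L R₁ R Z₁ Z₂ T G B w₁ w₂ lam W h hU hS hp hq hpq hK hL hRp hRq hRR hKL hKL2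
    hZ₁ hZ₂ hT hG hB₁ hB₂ hw₁ hw₂ hlam hsm hwL₁ hwL₂ hW₁ hW₂ hh
  classical
  have hUpos : (0 : ℝ) < U := by exact_mod_cast hU
  have hSpos : (0 : ℝ) < S := by exact_mod_cast hS
  have hppos : (0 : ℝ) < p := by exact_mod_cast hp.pos
  have hqpos : (0 : ℝ) < q := by exact_mod_cast hq.pos
  have hw₁0 : 0 ≤ w₁ := by
    rw [hw₁]
    exact div_nonneg (Real.log_nonneg (by exact_mod_cast hp.one_lt.le)) hqpos.le
  have hw₂0 : 0 ≤ w₂ := by
    rw [hw₂]
    exact div_nonneg (Real.log_nonneg (by exact_mod_cast hq.one_lt.le)) hppos.le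
  have hlp : Real.log p = q * w₁ := by rw [hw₁]; field_simp
  have hlq : Real.log q = p * w₂ := by rw [hw₂]; field_simp
  have hW0 : 0 ≤ W := le_trans (by positivity) hW₁
  have hlS0 : 0 ≤ Real.log S := Real.log_nonneg (by exact_mod_cast hS)
  have hh0 : 0 ≤ h := hlS0.trans hh
  let P := Fin (2 * R₁) × Fin (2 * R + L) × Fin (2 * R)
  let ι := Fin K × Fin K × Fin L
  let x₁ : P → ℕ := fun t => (t.1 : ℕ) + q * (t.2.1 : ℕ)
  let x₂ : P → ℕ := fun t => p * ((t.2.2 : ℕ) + 1) - (t.1 : ℕ)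
  have hx₁ : ∀ t, x₁ t ≤ Z₁ := by
    intro t
    have h1 : q * (t.2.1 : ℕ) ≤ q * (2 * R + L) := Nat.mul_le_mul_left _ t.2.1.2.le
    have h2 := t.1.2.le
    simp only [x₁]; omega
  have hx₂ : ∀ t, x₂ t ≤ Z₂ := by
    intro t
    have h1 : p * ((t.2.2 : ℕ) + 1) ≤ p * (2 * R) := Nat.mul_le_mul_left _ t.2.2.2
    simp only [x₂]; omega
  have hx₂r : ∀ t : P, ((x₂ t : ℕ) : ℝ) = p * ((t.2.2 : ℕ) + 1) - (t.1 : ℕ) := by
    intro t
    have h1 : (t.1 : ℕ) ≤ p * ((t.2.2 : ℕ) + 1) := by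
      have h2 : p * 1 ≤ p * ((t.2.2 : ℕ) + 1) := Nat.mul_le_mul_left _ (by omega)
      have h3 := t.1.2
      omega
    simp only [x₂]
    push_cast [Nat.cast_sub h1]
    ring
  let A : Matrix ι P ℤ := Matrix.of fun i t =>
    (Nat.choose (x₁ t) i.1 : ℤ) * (Nat.choose (x₂ t) i.2.1 : ℤ) *
      ((U : ℤ) ^ (t.1 : ℕ) * (p : ℤ) ^ (t.2.1 : ℕ) * (q : ℤ) ^ ((t.2.2 : ℕ) + 1)) ^ (i.2.2 : ℕ) *
      (S : ℤ) ^ ((t.1 : ℕ) * (L - 1 - (i.2.2 : ℕ)))
  let Aq : Matrix ι P ℚ := Matrix.of fun i t =>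
    (Nat.choose (x₁ t) i.1 : ℚ) * (Nat.choose (x₂ t) i.2.1 : ℚ) *
      (((U : ℚ) / S) ^ (t.1 : ℕ) * (p : ℚ) ^ (t.2.1 : ℕ) * (q : ℚ) ^ ((t.2.2 : ℕ) + 1)) ^ (i.2.2 : ℕ)
  obtain ⟨g, hg⟩ := exists_minor Aq (by
    intro c hc
    apply hze p q K L R₁ R ((U : ℚ) / S) hp hq hpq
      (div_pos (by exact_mod_cast hU) (by exact_mod_cast hS)) hK hL hRp hRq hRR hKL hKL2 c
    intro r₁ hr₁ r₂ hr₂ r₃ hr₃
    have := hc (⟨r₁, hr₁⟩, ⟨r₂, hr₂⟩, ⟨r₃, hr₃⟩)
    rw [← this]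
    rfl)
  have hSq : (S : ℚ) ≠ 0 := by
    have : (0 : ℚ) < S := by exact_mod_cast hS
    exact this.ne'
  have hdet : (A.submatrix id g).det ≠ 0 := by
    intro h0
    have h1 : ((A.submatrix id g).map (Int.castRingHom ℚ)) =
        Matrix.of fun i j => ((S : ℚ) ^ (((g j).1 : ℕ) * (L - 1))) * (Aq.submatrix id g) i j := by
      ext i j
      simp only [A, Aq, Matrix.map_apply, Matrix.submatrix_apply, Matrix.of_apply, id_eq, map_mul,
        map_pow, map_natCast]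
      exact entry_clear _ _ _ _ _ _ hSq _ _ _ i.2.2.2
    have h2 : ((A.submatrix id g).map (Int.castRingHom ℚ)).det = 0 := by
      rw [← RingHom.mapMatrix_apply, ← RingHom.map_det, h0, map_zero]
    rw [h1, Matrix.det_mul_row] at h2
    rcases mul_eq_zero.mp h2 with h3 | h3
    · rw [Finset.prod_eq_zero_iff] at h3
      obtain ⟨j, _, hj⟩ := h3
      exact pow_ne_zero _ hSq hj
    · exact hg h3
  -- the real matrices
  let u₁ : ι → ℝ := fun i => Real.exp ((i.2.2 : ℕ) * w₁)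
  let u₂ : ι → ℝ := fun i => Real.exp ((i.2.2 : ℕ) * w₂)
  have hu₁ : ∀ i, 1 ≤ u₁ i := fun i => Real.one_le_exp (by positivity)
  have hu₂ : ∀ i, 1 ≤ u₂ i := fun i => Real.one_le_exp (by positivity)
  let Mn : Matrix ι ι ℝ := Matrix.of fun i j =>
    (Nat.choose (x₁ (g j)) (i.1 : ℕ) : ℝ) * (Nat.choose (x₂ (g j)) (i.2.1 : ℕ) : ℝ) *
      (u₁ i ^ (x₁ (g j)) * u₂ i ^ (x₂ (g j)))
  let AR : Matrix ι ι ℝ := Matrix.of fun i j =>
    (Nat.choose (x₁ (g j)) i.1 : ℝ) * (Nat.choose (x₂ (g j)) i.2.1 : ℝ) *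
      (((U : ℝ) / S) ^ ((g j).1 : ℕ) * (p : ℝ) ^ ((g j).2.1 : ℕ) *
        (q : ℝ) ^ (((g j).2.2 : ℕ) + 1)) ^ (i.2.2 : ℕ)
  have hcard : Fintype.card ι = K * K * L := by simp [ι, mul_assoc]
  have hone : Real.exp (-((K * K * L : ℕ) * (L * (2 * R₁) * h))) ≤ |AR.det| := by
    have h1 : ((A.submatrix id g).map (Int.castRingHom ℝ)) =
        Matrix.of fun i j => ((S : ℝ) ^ (((g j).1 : ℕ) * (L - 1))) * AR i j := by
      ext i j
      simp only [A, AR, Matrix.map_apply, Matrix.submatrix_apply, Matrix.of_apply, id_eq, map_mul,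
        map_pow, map_natCast]
      exact entry_clear _ _ _ _ _ _ hSpos.ne' _ _ _ i.2.2.2
    have h2 : ((A.submatrix id g).map (Int.castRingHom ℝ)).det = ((A.submatrix id g).det : ℝ) := by
      rw [← RingHom.mapMatrix_apply, ← RingHom.map_det]
      rfl
    rw [h1, Matrix.det_mul_row] at h2
    have h3 : (1 : ℝ) ≤ |((A.submatrix id g).det : ℝ)| := by
      have h4 : (1 : ℤ) ≤ |(A.submatrix id g).det| := Int.one_le_abs hdet
      exact_mod_cast h4
    rw [← h2, abs_mul] at h3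
    have h4 : |∏ j, ((S : ℝ) ^ (((g j).1 : ℕ) * (L - 1)))| ≤
        Real.exp ((K * K * L : ℕ) * (L * (2 * R₁) * h)) := by
      rw [abs_of_nonneg (Finset.prod_nonneg fun j _ => by positivity)]
      calc ∏ j, ((S : ℝ) ^ (((g j).1 : ℕ) * (L - 1)))
          ≤ ∏ _j : ι, Real.exp (L * (2 * R₁) * h) := by
            apply Finset.prod_le_prod
            · intro j _; positivity
            · intro j _
              rw [← Real.exp_log hSpos, ← Real.exp_nat_mul]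
              apply Real.exp_le_exp.mpr
              have h5 : ((((g j).1 : ℕ) * (L - 1) : ℕ) : ℝ) ≤ L * (2 * R₁) := by
                have h6 : ((g j).1 : ℕ) * (L - 1) ≤ (2 * R₁) * L :=
                  Nat.mul_le_mul (g j).1.2.le (Nat.sub_le _ _)
                calc ((((g j).1 : ℕ) * (L - 1) : ℕ) : ℝ) ≤ (((2 * R₁) * L : ℕ) : ℝ) := by
                      exact_mod_cast h6
                  _ = _ := by push_cast; ring
              calc ((((g j).1 : ℕ) * (L - 1) : ℕ) : ℝ) * Real.log S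
                  ≤ (L * (2 * R₁)) * Real.log S := mul_le_mul_of_nonneg_right h5 hlS0
                _ ≤ (L * (2 * R₁)) * h := mul_le_mul_of_nonneg_left hh (by positivity)
        _ = Real.exp ((K * K * L : ℕ) * (L * (2 * R₁) * h)) := by
            rw [Finset.prod_const, Finset.card_univ, hcard, ← Real.exp_nat_mul]
    have h5 : 1 ≤ Real.exp ((K * K * L : ℕ) * (L * (2 * R₁) * h)) * |AR.det| :=
      h3.trans (mul_le_mul_of_nonneg_right h4 (abs_nonneg _))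
    rw [Real.exp_neg, inv_eq_one_div, div_le_iff₀ (Real.exp_pos _)]
    linarith
  have hentry : ∀ i j, AR i j = Mn i j * Real.exp (lam * ((i.2.2 : ℕ) * ((g j).1 : ℕ))) := by
    intro i j
    simp only [AR, Mn, Matrix.of_apply, u₁, u₂]
    rw [mul_assoc, mul_assoc, mul_assoc, mul_assoc, ← Real.exp_nat_mul, ← Real.exp_nat_mul,
      ← Real.exp_add, ← Real.exp_add]
    congr 2
    have hUS : (U : ℝ) / S = Real.exp (Real.log U - Real.log S) := by
      rw [Real.exp_sub, Real.exp_log hUpos, Real.exp_log hSpos]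
    have hpe : (p : ℝ) = Real.exp (Real.log p) := (Real.exp_log hppos).symm
    have hqe : (q : ℝ) = Real.exp (Real.log q) := (Real.exp_log hqpos).symm
    rw [hUS]
    conv_lhs => rw [hpe, hqe]
    rw [← Real.exp_nat_mul, ← Real.exp_nat_mul, ← Real.exp_nat_mul, ← Real.exp_add,
      ← Real.exp_add, ← Real.exp_nat_mul]
    congr 1
    rw [hlam, hlp, hlq, hx₂r (g j)]
    simp only [x₁]
    push_cast
    ring
  have hBnn : 0 ≤ B := le_trans (by positivity) (hB₁ 0 (by omega) 0 (by omega))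
  have hLR0 : (0 : ℝ) ≤ |lam| * (L * (2 * R₁)) := by positivity
  have h2pow : (1 : ℝ) ≤ 2 ^ (T + 1) := one_le_pow₀ (by norm_num)
  have hsm1 : |lam| * (L * (2 * R₁)) ≤ 1 := by
    refine le_trans ?_ hsm
    exact le_mul_of_one_le_right hLR0 h2pow
  -- one variable, one row
  have hrow : ∀ (Z : ℕ) (w : ℝ) (k : Fin K) (l : Fin L), (∀ k < K, ∀ z ≤ Z, (Nat.choose z k : ℝ) ≤ B) →
      0 ≤ w → L * w ≤ 1 → Z * w ≤ W →
      (Nat.choose Z (k : ℕ) : ℝ) * (Real.exp ((l : ℕ) * w)) ^ (k : ℕ) *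
      (1 + 2 * (Real.exp ((l : ℕ) * w) - 1)) ^ Z ≤ B * Real.exp ((l : ℕ) * (K * w + 4 * W)) := by
    intro Z w k l hBZ hw0 hwL hW
    have hui : 1 ≤ Real.exp ((l : ℕ) * w) := Real.one_le_exp (by positivity)
    have h3 : (Real.exp ((l : ℕ) * w)) ^ (k : ℕ) ≤ Real.exp ((l : ℕ) * (K * w)) := by
      rw [← Real.exp_nat_mul]
      apply Real.exp_le_exp.mpr
      have h5 : ((k : ℕ) : ℝ) ≤ K := by exact_mod_cast k.2.le
      have h6 : 0 ≤ ((l : ℕ) : ℝ) * w := by positivity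
      calc ((k : ℕ) : ℝ) * (((l : ℕ) : ℝ) * w) ≤ K * (((l : ℕ) : ℝ) * w) :=
            mul_le_mul_of_nonneg_right h5 h6
        _ = _ := by ring
    have h4 : (1 + 2 * (Real.exp ((l : ℕ) * w) - 1)) ^ Z ≤ Real.exp ((l : ℕ) * (4 * W)) := by
      have h5 : Real.exp ((l : ℕ) * w) - 1 ≤ 2 * ((l : ℕ) * w) := by
        have h6 : |((l : ℕ) : ℝ) * w| ≤ 1 := by
          rw [abs_of_nonneg (by positivity)]
          have h7 : ((l : ℕ) : ℝ) ≤ L := by exact_mod_cast l.2.le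
          exact (mul_le_mul_of_nonneg_right h7 hw0).trans hwL
        have h7 := Real.abs_exp_sub_one_le h6
        have h8 := (le_abs_self _).trans h7
        rw [abs_of_nonneg (by positivity)] at h8
        exact h8
      calc (1 + 2 * (Real.exp ((l : ℕ) * w) - 1)) ^ Z
          ≤ (Real.exp (2 * (Real.exp ((l : ℕ) * w) - 1))) ^ Z := by
            apply pow_le_pow_left₀ (by linarith)
            rw [add_comm]
            exact Real.add_one_le_exp _
        _ = Real.exp (Z * (2 * (Real.exp ((l : ℕ) * w) - 1))) := by rw [← Real.exp_nat_mul]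
        _ ≤ Real.exp ((l : ℕ) * (4 * W)) := by
            apply Real.exp_le_exp.mpr
            have hZ0 : (0 : ℝ) ≤ Z := by positivity
            calc (Z : ℝ) * (2 * (Real.exp ((l : ℕ) * w) - 1)) ≤ Z * (2 * (2 * ((l : ℕ) * w))) := by
                  apply mul_le_mul_of_nonneg_left _ hZ0
                  linarith
              _ = ((l : ℕ) * 4) * (Z * w) := by ring
              _ ≤ ((l : ℕ) * 4) * W := mul_le_mul_of_nonneg_left hW (by positivity)
              _ = _ := by ring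
    have h5 : (Nat.choose Z (k : ℕ) : ℝ) ≤ B := hBZ _ k.2 Z le_rfl
    have h6 : Real.exp ((l : ℕ) * (K * w + 4 * W))
        = Real.exp ((l : ℕ) * (K * w)) * Real.exp ((l : ℕ) * (4 * W)) := by
      rw [← Real.exp_add]; congr 1; ring
    rw [h6, ← mul_assoc]
    apply mul_le_mul _ h4 (by
      have : 0 ≤ 1 + 2 * (Real.exp ((l : ℕ) * w) - 1) := by linarith
      positivity) (by positivity)
    exact mul_le_mul h5 h3 (by positivity) hBnn
  have hMn : ∀ i j, Mn i j ≤ B ^ 2 * Real.exp ((i.2.2 : ℕ) * (2 * W)) := by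
    intro i j
    simp only [Mn, Matrix.of_apply]
    have h1 : (Nat.choose (x₁ (g j)) (i.1 : ℕ) : ℝ) * (Nat.choose (x₂ (g j)) (i.2.1 : ℕ) : ℝ) ≤
        B ^ 2 := by
      rw [pow_two]
      exact mul_le_mul (hB₁ _ i.1.2 _ (hx₁ (g j))) (hB₂ _ i.2.1.2 _ (hx₂ (g j))) (by positivity) hBnn
    apply mul_le_mul h1 _ (by
      have h2 : 0 ≤ u₁ i := by linarith [hu₁ i]
      have h3 : 0 ≤ u₂ i := by linarith [hu₂ i]
      positivity) (by positivity)
    simp only [u₁, u₂]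
    rw [← Real.exp_nat_mul, ← Real.exp_nat_mul, ← Real.exp_add]
    apply Real.exp_le_exp.mpr
    have h3 : ((x₁ (g j) : ℕ) : ℝ) * w₁ ≤ W := by
      refine le_trans ?_ hW₁
      apply mul_le_mul_of_nonneg_right _ hw₁0
      exact_mod_cast hx₁ (g j)
    have h4 : ((x₂ (g j) : ℕ) : ℝ) * w₂ ≤ W := by
      refine le_trans ?_ hW₂
      apply mul_le_mul_of_nonneg_right _ hw₂0
      exact_mod_cast hx₂ (g j)
    calc ((x₁ (g j) : ℕ) : ℝ) * ((i.2.2 : ℕ) * w₁) + ((x₂ (g j) : ℕ) : ℝ) * ((i.2.2 : ℕ) * w₂)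
        = (i.2.2 : ℕ) * (((x₁ (g j) : ℕ) : ℝ) * w₁ + ((x₂ (g j) : ℕ) : ℝ) * w₂) := by ring
      _ ≤ _ := mul_le_mul_of_nonneg_left (by linarith) (by positivity)
  have hMn0 : ∀ i j, 0 ≤ Mn i j := by
    intro i j
    simp only [Mn, Matrix.of_apply]
    have h2 : 0 ≤ u₁ i := by linarith [hu₁ i]
    have h3 : 0 ≤ u₂ i := by linarith [hu₂ i]
    positivity
  have hE : ∀ i j, |Mn i j * (Real.exp (lam * ((i.2.2 : ℕ) * ((g j).1 : ℕ))) - 1)| ≤
      (B ^ 2 * Real.exp ((i.2.2 : ℕ) * (2 * W))) * (2 * (|lam| * (L * (2 * R₁)))) := by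
    intro i j
    have h4 : |lam * (((i.2.2 : ℕ) : ℝ) * ((g j).1 : ℕ))| ≤ |lam| * (L * (2 * R₁)) := by
      rw [abs_mul]
      apply mul_le_mul_of_nonneg_left _ (abs_nonneg _)
      rw [abs_of_nonneg (by positivity)]
      apply mul_le_mul _ _ (by positivity) (by positivity)
      · exact_mod_cast i.2.2.2.le
      · exact_mod_cast (g j).1.2.le
    have h5 := Real.abs_exp_sub_one_le (h4.trans hsm1)
    rw [abs_mul, abs_of_nonneg (hMn0 i j)]
    apply mul_le_mul (hMn i j) _ (abs_nonneg _) (mul_nonneg (by positivity) (Real.exp_pos _).le)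
    linarith
  have hARdet : AR.det = (Matrix.of fun i j =>
      (Nat.choose (x₁ (g j)) (i.1 : ℕ) : ℝ) * (Nat.choose (x₂ (g j)) (i.2.1 : ℕ) : ℝ) *
        (u₁ i ^ (x₁ (g j)) * u₂ i ^ (x₂ (g j))) +
      Mn i j * (Real.exp (lam * ((i.2.2 : ℕ) * ((g j).1 : ℕ))) - 1)).det := by
    congr 1
    funext i j
    rw [hentry i j]
    simp only [Mn, Matrix.of_apply]
    ring
  have hsumk : 2 * ∑ i : ι, ((i.1 : ℕ) + (i.2.1 : ℕ)) = 2 * (K * K * L * (K - 1)) := by
    have h2 := Finset.sum_range_id_mul_two K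
    have h3 : ∑ i : ι, (i.1 : ℕ) = (K * L) * ∑ k ∈ range K, k := by
      rw [Fintype.sum_prod_type]
      simp only [Finset.sum_const, Finset.card_univ, Fintype.card_fin, smul_eq_mul,
        Fintype.card_prod]
      rw [← Finset.mul_sum, Fin.sum_univ_eq_sum_range (fun k => k) K]
    have h4 : ∑ i : ι, (i.2.1 : ℕ) = (K * L) * ∑ k ∈ range K, k := by
      rw [Fintype.sum_prod_type]
      simp only [Fintype.sum_prod_type, Finset.sum_const, Finset.card_univ, Fintype.card_fin,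
        smul_eq_mul]
      rw [← Finset.mul_sum, Fin.sum_univ_eq_sum_range (fun k => k) K, mul_assoc]
    rw [Finset.sum_add_distrib, h3, h4]
    have h5 : 2 * (K * L * ∑ k ∈ range K, k + K * L * ∑ k ∈ range K, k) =
        2 * (K * L * ((∑ k ∈ range K, k) * 2)) := by ring
    rw [h5, h2]
    ring
  have hmain := hdetS ι Z₁ Z₂ T G (fun i => (i.1 : ℕ)) (fun i => (i.2.1 : ℕ)) u₁ u₂
      (fun j => x₁ (g j)) (fun j => x₂ (g j)) (fun j => hx₁ (g j)) (fun j => hx₂ (g j)) hu₁ hu₂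
      (by rw [hcard]; exact hT) (by rw [hcard, hsumk]; exact hG)
      (fun i j => Mn i j * (Real.exp (lam * ((i.2.2 : ℕ) * ((g j).1 : ℕ))) - 1))
      (fun i => (B ^ 2 * Real.exp ((i.2.2 : ℕ) * (2 * W))) * (2 * (|lam| * (L * (2 * R₁))))) hE
  rw [← hARdet, hcard] at hmain
  have h2pos : (0 : ℝ) < 2 ^ G := by positivity
  have hcastKL : ((K * K * L : ℕ) : ℝ) = K * K * L := by push_cast; ring
  have h4 : ∏ i : ι, ((Nat.choose Z₁ (i.1 : ℕ) : ℝ) * u₁ i ^ (i.1 : ℕ) *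
      (1 + 2 * (u₁ i - 1)) ^ Z₁ * ((Nat.choose Z₂ (i.2.1 : ℕ) : ℝ) * u₂ i ^ (i.2.1 : ℕ) *
      (1 + 2 * (u₂ i - 1)) ^ Z₂) +
      2 ^ T * ((B ^ 2 * Real.exp ((i.2.2 : ℕ) * (2 * W))) * (2 * (|lam| * (L * (2 * R₁))))))
      ≤ ∏ _i : ι, ((2 * B ^ 2) * Real.exp (L * (K * (w₁ + w₂) + 8 * W))) := by
    apply Finset.prod_le_prod
    · intro i _
      have h5 : 0 ≤ u₁ i := by linarith [hu₁ i]
      have h6 : 0 ≤ u₂ i := by linarith [hu₂ i]
      have h7 : 0 ≤ 1 + 2 * (u₁ i - 1) := by linarith [hu₁ i]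
      have h8 : 0 ≤ 1 + 2 * (u₂ i - 1) := by linarith [hu₂ i]
      positivity
    · intro i _
      have h5 : (2 : ℝ) ^ T * ((B ^ 2 * Real.exp ((i.2.2 : ℕ) * (2 * W))) *
          (2 * (|lam| * (L * (2 * R₁))))) =
          (B ^ 2 * Real.exp ((i.2.2 : ℕ) * (2 * W))) * (|lam| * (L * (2 * R₁)) * 2 ^ (T + 1)) := by
        rw [pow_succ]; ring
      have h6 : (B ^ 2 * Real.exp ((i.2.2 : ℕ) * (2 * W))) *
          (|lam| * (L * (2 * R₁)) * 2 ^ (T + 1)) ≤ B ^ 2 * Real.exp ((i.2.2 : ℕ) * (2 * W)) :=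
        mul_le_of_le_one_right (mul_nonneg (by positivity) (Real.exp_pos _).le) hsm
      have hlL : (((i.2.2 : Fin L) : ℕ) : ℝ) ≤ L := by exact_mod_cast i.2.2.2.le
      have hKw : 0 ≤ (K : ℝ) * (w₁ + w₂) := by positivity
      have h7 : Real.exp ((i.2.2 : ℕ) * (2 * W)) ≤ Real.exp (L * (K * (w₁ + w₂) + 8 * W)) := by
        apply Real.exp_le_exp.mpr
        apply mul_le_mul hlL _ (by positivity) (by positivity)
        linarith
      have h8 : B ^ 2 * Real.exp ((i.2.2 : ℕ) * (2 * W)) ≤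
          B ^ 2 * Real.exp (L * (K * (w₁ + w₂) + 8 * W)) :=
        mul_le_mul_of_nonneg_left h7 (by positivity)
      have h9 := hrow Z₁ w₁ i.1 i.2.2 hB₁ hw₁0 hwL₁ hW₁
      have h10 := hrow Z₂ w₂ i.2.1 i.2.2 hB₂ hw₂0 hwL₂ hW₂
      have h11 : (Nat.choose Z₁ (i.1 : ℕ) : ℝ) * u₁ i ^ (i.1 : ℕ) *
          (1 + 2 * (u₁ i - 1)) ^ Z₁ * ((Nat.choose Z₂ (i.2.1 : ℕ) : ℝ) * u₂ i ^ (i.2.1 : ℕ) *
          (1 + 2 * (u₂ i - 1)) ^ Z₂) ≤ B ^ 2 * Real.exp (L * (K * (w₁ + w₂) + 8 * W)) := by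
        have h12 : 0 ≤ (Nat.choose Z₂ (i.2.1 : ℕ) : ℝ) * u₂ i ^ (i.2.1 : ℕ) *
            (1 + 2 * (u₂ i - 1)) ^ Z₂ := by
          have h5 : 0 ≤ u₂ i := by linarith [hu₂ i]
          have h8 : 0 ≤ 1 + 2 * (u₂ i - 1) := by linarith [hu₂ i]
          positivity
        refine (mul_le_mul h9 h10 h12 (mul_nonneg hBnn (Real.exp_pos _).le)).trans ?_
        have h13 : B * Real.exp ((i.2.2 : ℕ) * (K * w₁ + 4 * W)) *
            (B * Real.exp ((i.2.2 : ℕ) * (K * w₂ + 4 * W))) =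
            B ^ 2 * Real.exp ((i.2.2 : ℕ) * (K * (w₁ + w₂) + 8 * W)) := by
          have h14 : Real.exp ((i.2.2 : ℕ) * (K * (w₁ + w₂) + 8 * W)) =
              Real.exp ((i.2.2 : ℕ) * (K * w₁ + 4 * W)) *
              Real.exp ((i.2.2 : ℕ) * (K * w₂ + 4 * W)) := by
            rw [← Real.exp_add]; congr 1; ring
          rw [h14]; ring
        rw [h13]
        apply mul_le_mul_of_nonneg_left _ (by positivity)
        apply Real.exp_le_exp.mpr
        exact mul_le_mul_of_nonneg_right hlL (by positivity)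
      rw [h5]
      linarith
  have h5 : |AR.det| * 2 ^ G ≤ (K * K * L).factorial * (2 * B ^ 2) ^ (K * K * L) *
      Real.exp ((K * K * L) * (L * (K * (w₁ + w₂) + 8 * W))) := by
    refine hmain.trans ?_
    rw [mul_assoc ((K * K * L).factorial : ℝ)]
    apply mul_le_mul_of_nonneg_left _ (by positivity)
    refine h4.trans (le_of_eq ?_)
    rw [Finset.prod_const, Finset.card_univ, hcard, mul_pow, ← Real.exp_nat_mul, hcastKL]
  have h6 : (2 : ℝ) ^ G * Real.exp (-((K * K * L : ℕ) * (L * (2 * R₁) * h))) ≤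
      (K * K * L).factorial * (2 * B ^ 2) ^ (K * K * L) *
      Real.exp ((K * K * L) * (L * (K * (w₁ + w₂) + 8 * W))) := by
    refine le_trans ?_ h5
    rw [mul_comm]
    exact mul_le_mul_of_nonneg_right hone h2pos.le
  have h7 : Real.exp ((K * K * L) * (L * (K * (w₁ + w₂) + 8 * W) + L * (2 * R₁) * h)) =
      Real.exp ((K * K * L) * (L * (K * (w₁ + w₂) + 8 * W))) *
      Real.exp ((K * K * L : ℕ) * (L * (2 * R₁) * h)) := by
    rw [← Real.exp_add, hcastKL]; congr 1; ring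
  rw [h7, ← mul_assoc]
  rw [Real.exp_neg, ← div_eq_mul_inv, div_le_iff₀ (Real.exp_pos _)] at h6
  exact h6

end Pool.Agent.Work.MP_2738db_nt_Y.helper82
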