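import Pool.Agent.Work.MP_2738db_nt_Y.Interface
import Pool.Agent.Work.MP_2738db_nt_W.TwoLog2

set_option autoImplicit false

/-!
The linear form in three logarithms (block LF3 of theorem Y, helper82).
-/

namespace Pool.Agent.Work.MP_2738db_nt_Y.helper82

open Finset BigOperators
open Pool.Agent.Work.MP_2738db_nt_W (choose_bound)
open Pool.Agent.Work.MP_2738db_nt_Y

lemma choose_le_B {K ℓ M k z : ℕ} (hK : 1 ≤ K) (hℓ : 1 ≤ ℓ) (hk : k < K) (hz : z ≤ K * ℓ)
    (Lg : ℝ) (hM : 1 ≤ M) (hLg : Lg = 1 + Real.log (ℓ * M)) :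
    (Nat.choose z k : ℝ) ≤ Real.exp (K * Lg) := by
  have h1 := choose_bound hK hℓ hk hz
  have hℓ0 : (0 : ℝ) < ℓ := by exact_mod_cast hℓ
  have hM0 : (1 : ℝ) ≤ M := by exact_mod_cast hM
  have h2 : Real.exp (K * Lg) = Real.exp K * (ℓ * M : ℝ) ^ K := by
    have h3 : (K : ℝ) * Lg = K + K * Real.log (ℓ * M) := by rw [hLg]; ring
    rw [h3, Real.exp_add, Real.exp_nat_mul (Real.log (ℓ * M)) K, Real.exp_log (by positivity)]
  rw [h2]
  refine h1.trans ?_
  apply mul_le_mul_of_nonneg_left _ (Real.exp_pos _).le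
  apply pow_le_pow_left₀ hℓ0.le
  exact le_mul_of_one_le_right hℓ0.le hM0

theorem lf3 : Stmt_Core → Stmt_Lf3 := by
  intro hcore
  refine ⟨4 * 244 ^ 13, by norm_num, ?_⟩
  intro U S p q h hU hS hp hq hpq hh hUh hSh hCp hCq
  by_contra hcon
  rw [not_le] at hcon
  have hp1 : (1 : ℝ) ≤ p := by exact_mod_cast hp.one_lt.le
  have hq1 : (1 : ℝ) ≤ q := by exact_mod_cast hq.one_lt.le
  have hp0 : (0 : ℝ) < p := by linarith
  have hq0 : (0 : ℝ) < q := by linarith
  have hlp : 0 ≤ Real.log p := Real.log_nonneg hp1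
  have hlq : 0 ≤ Real.log q := Real.log_nonneg hq1
  have hlpq : Real.log (p * q) = Real.log p + Real.log q := Real.log_mul hp0.ne' hq0.ne'
  obtain ⟨Lg, hLg⟩ : ∃ Lg : ℝ, Lg = 1 + Real.log (p * q) := ⟨_, rfl⟩
  rw [← hLg] at hCp hCq hcon
  have hLgp : Real.log p ≤ Lg := by rw [hLg, hlpq]; linarith
  have hLgq : Real.log q ≤ Lg := by rw [hLg, hlpq]; linarith
  have hLg1 : 1 ≤ Lg := by rw [hLg, hlpq]; linarith
  have hLg0 : 0 ≤ Lg := by linarith
  obtain ⟨σ, hσ⟩ : ∃ σ : ℕ, σ = ⌈60 * Lg⌉₊ := ⟨_, rfl⟩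
  have hσ1 : 60 * Lg ≤ σ := by rw [hσ]; exact Nat.le_ceil _
  have hσ2 : (σ : ℝ) ≤ 61 * Lg := by
    have h1 : (σ : ℝ) < 60 * Lg + 1 := by rw [hσ]; exact Nat.ceil_lt_add_one (by positivity)
    linarith
  obtain ⟨s, hs⟩ : ∃ s : ℕ, s = 4 * σ := ⟨_, rfl⟩
  have hsr : (s : ℝ) = 4 * σ := by rw [hs]; push_cast; ring
  have hs1 : 240 * Lg ≤ s := by rw [hsr]; linarith
  have hs2 : (s : ℝ) ≤ 244 * Lg := by rw [hsr]; linarith
  have hs240 : 240 ≤ s := by
    have : (240 : ℝ) ≤ s := by linarith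
    exact_mod_cast this
  obtain ⟨H, hH⟩ : ∃ H : ℕ, H = ⌈h⌉₊ := ⟨_, rfl⟩
  have hH1 : h ≤ H := by rw [hH]; exact Nat.le_ceil _
  have hH2 : (H : ℝ) ≤ 2 * h := by
    have h1 : (H : ℝ) < h + 1 := by rw [hH]; exact Nat.ceil_lt_add_one (by linarith)
    linarith
  have hHpos : 1 ≤ H := by
    have : (1 : ℝ) ≤ H := by linarith
    exact_mod_cast this
  have hs0r : (0 : ℝ) ≤ s := by positivity
  have hspow : ∀ n : ℕ, (s : ℝ) ^ n ≤ 244 ^ n * Lg ^ n := by
    intro n
    rw [← mul_pow]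
    exact pow_le_pow_left₀ hs0r hs2 n
  have hspos : ∀ n : ℕ, 1 ≤ s ^ n := fun n => Nat.one_le_pow _ _ (by omega)
  -- parameters
  obtain ⟨L, hL⟩ : ∃ L : ℕ, L = s ^ 2 := ⟨_, rfl⟩
  obtain ⟨K, hK⟩ : ∃ K : ℕ, K = H * s ^ 12 := ⟨_, rfl⟩
  obtain ⟨R₁, hR₁⟩ : ∃ R₁ : ℕ, R₁ = s ^ 10 := ⟨_, rfl⟩
  obtain ⟨R, hR⟩ : ∃ R : ℕ, R = H * s ^ 10 := ⟨_, rfl⟩
  have hK1 : 1 ≤ K := by rw [hK]; exact Nat.mul_pos hHpos (hspos 12)
  have hL1 : 1 ≤ L := by rw [hL]; exact hspos 2
  have hR₁p : ∀ x : ℕ, (4 * 244 ^ 13 : ℝ) * Lg ^ 10 ≤ x → 2 * R₁ ≤ x := by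
    intro x hx
    have h1 : (2 * R₁ : ℝ) ≤ x := by
      rw [hR₁]
      push_cast
      have h2 := hspow 10
      have h3 : (0 : ℝ) ≤ Lg ^ 10 := by positivity
      calc 2 * (s : ℝ) ^ 10 ≤ 2 * (244 ^ 10 * Lg ^ 10) := by linarith
        _ ≤ 4 * 244 ^ 13 * Lg ^ 10 := by nlinarith
        _ ≤ x := hx
    exact_mod_cast h1
  have hp2 := hR₁p p hCp
  have hq2 := hR₁p q hCq
  have hLx : ∀ x : ℕ, 1 ≤ (x : ℝ) → (4 * 244 ^ 13 : ℝ) * Lg ^ 10 ≤ x → ∀ y : ℝ, y ≤ Lg →
      (L : ℝ) * (y / x) ≤ 1 := by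
    intro x hx1 hx y hy
    have hx0 : (0 : ℝ) < x := by linarith
    rw [← mul_div_assoc, div_le_one hx0]
    rw [hL]
    push_cast
    have h2 := hspow 2
    have h3 : Lg ^ 3 ≤ Lg ^ 10 := pow_le_pow_right₀ hLg1 (by norm_num)
    calc (s : ℝ) ^ 2 * y ≤ (s : ℝ) ^ 2 * Lg := mul_le_mul_of_nonneg_left hy (by positivity)
      _ ≤ (244 ^ 2 * Lg ^ 2) * Lg := mul_le_mul_of_nonneg_right h2 hLg0
      _ = 244 ^ 2 * Lg ^ 3 := by ring
      _ ≤ 244 ^ 2 * Lg ^ 10 := by linarith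
      _ ≤ 4 * 244 ^ 13 * Lg ^ 10 := by
          have : (0 : ℝ) ≤ Lg ^ 10 := by positivity
          nlinarith
      _ ≤ x := hx
  have hKs : (K : ℕ) * s ≥ 1 := Nat.mul_pos hK1 (by omega)
  obtain ⟨lam, hlam⟩ : ∃ lam : ℝ, lam = (p * q * (Real.log U - Real.log S) - p * Real.log p +
    q * Real.log q) / (p * q) := ⟨_, rfl⟩
  have hlamabs : |lam| ≤ |p * q * (Real.log U - Real.log S) - p * Real.log p + q * Real.log q| := by
    rw [hlam, abs_div]
    apply div_le_self (abs_nonneg _)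
    rw [abs_of_nonneg (by positivity)]
    nlinarith
  have hKr : (K : ℝ) = H * s ^ 12 := by rw [hK]; push_cast; ring
  have hLr : (L : ℝ) = s ^ 2 := by rw [hL]; push_cast; ring
  have hRr : (R : ℝ) = H * s ^ 10 := by rw [hR]; push_cast; ring
  have hR₁r : (R₁ : ℝ) = s ^ 10 := by rw [hR₁]; push_cast; ring
  -- smallness
  have hsm : |lam| * (L * (2 * R₁)) * 2 ^ (K * s - 1 + 1) ≤ 1 := by
    rw [Nat.sub_add_cancel hKs]
    have h1 : (L : ℝ) * (2 * R₁) ≤ 2 ^ (K * s) := by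
      have h2 : L * (2 * R₁) ≤ 2 ^ (K * s) := by
        have h3 : s < 2 ^ s := Nat.lt_two_pow_self
        have h4 : s ^ 12 ≤ (2 ^ s) ^ 12 := Nat.pow_le_pow_left h3.le 12
        calc L * (2 * R₁) = 2 ^ 1 * s ^ 12 := by rw [hL, hR₁]; ring
          _ ≤ 2 ^ 1 * (2 ^ s) ^ 12 := Nat.mul_le_mul_left _ h4
          _ = 2 ^ (1 + s * 12) := by rw [← pow_mul, ← pow_add]
          _ ≤ 2 ^ (K * s) := by
              apply Nat.pow_le_pow_right (by norm_num)
              have h5 : 13 ≤ K := by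
                rw [hK]
                have h6 : s ^ 1 ≤ s ^ 12 := Nat.pow_le_pow_right (by omega) (by norm_num)
                have h7 : 1 * s ^ 12 ≤ H * s ^ 12 := Nat.mul_le_mul_right _ hHpos
                rw [pow_one] at h6
                omega
              have h6 : 13 * s ≤ K * s := Nat.mul_le_mul_right _ h5
              omega
      exact_mod_cast h2
    have h2 : (2 : ℝ) ^ (K * s) * 2 ^ (K * s) ≤ Real.exp (4 * 244 ^ 13 * h * Lg ^ 13) := by
      have h3 : (2 : ℝ) ≤ Real.exp 1 := by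
        have := Real.add_one_le_exp (1 : ℝ)
        linarith
      have h4 : (2 : ℝ) ^ (K * s) ≤ Real.exp (K * s) := by
        calc (2 : ℝ) ^ (K * s) ≤ (Real.exp 1) ^ (K * s) := pow_le_pow_left₀ (by norm_num) h3 _
          _ = Real.exp (K * s) := by rw [← Real.exp_nat_mul]; push_cast; ring_nf
      calc (2 : ℝ) ^ (K * s) * 2 ^ (K * s) ≤ Real.exp (K * s) * Real.exp (K * s) :=
            mul_le_mul h4 h4 (by positivity) (Real.exp_pos _).le
        _ = Real.exp (2 * (H * s ^ 13)) := by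
            rw [← Real.exp_add, hKr]; congr 1; ring
        _ ≤ Real.exp (4 * 244 ^ 13 * h * Lg ^ 13) := by
            apply Real.exp_le_exp.mpr
            have h5 := hspow 13
            have h6 : (H : ℝ) * s ^ 13 ≤ (2 * h) * (244 ^ 13 * Lg ^ 13) :=
              mul_le_mul hH2 h5 (by positivity) (by linarith)
            calc 2 * ((H : ℝ) * s ^ 13) ≤ 2 * ((2 * h) * (244 ^ 13 * Lg ^ 13)) := by linarith
              _ = 4 * 244 ^ 13 * h * Lg ^ 13 := by ring
    have h3 : |lam| ≤ Real.exp (-(4 * 244 ^ 13 * h * Lg ^ 13)) := hlamabs.trans hcon.le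
    calc |lam| * (L * (2 * R₁)) * 2 ^ (K * s)
        ≤ Real.exp (-(4 * 244 ^ 13 * h * Lg ^ 13)) * 2 ^ (K * s) * 2 ^ (K * s) := by
          apply mul_le_mul_of_nonneg_right _ (by positivity)
          exact mul_le_mul h3 h1 (by positivity) (Real.exp_pos _).le
      _ = Real.exp (-(4 * 244 ^ 13 * h * Lg ^ 13)) * (2 ^ (K * s) * 2 ^ (K * s)) := by ring
      _ ≤ Real.exp (-(4 * 244 ^ 13 * h * Lg ^ 13)) * Real.exp (4 * 244 ^ 13 * h * Lg ^ 13) :=
          mul_le_mul_of_nonneg_left h2 (Real.exp_pos _).le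
      _ = 1 := by rw [← Real.exp_add]; simp
  have hs2le : ∀ n : ℕ, 2 ≤ n → s * 240 ≤ s ^ n := by
    intro n hn
    calc s * 240 ≤ s * s := Nat.mul_le_mul_left _ hs240
      _ = s ^ 2 := by ring
      _ ≤ s ^ n := Nat.pow_le_pow_right (by omega) hn
  have hZK : ∀ x : ℕ, 3 * x * R ≤ K * x := by
    intro x
    rw [hR, hK]
    have h1 : 3 ≤ s ^ 2 := by have := hs2le 2 le_rfl; omega
    calc 3 * x * (H * s ^ 10) = 3 * (x * H * s ^ 10) := by ring
      _ ≤ s ^ 2 * (x * H * s ^ 10) := Nat.mul_le_mul_right _ h1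
      _ = H * s ^ 12 * x := by ring
  have hmain := hcore U S p q K L R₁ R (3 * q * R) (3 * p * R) (K * s - 1) (K * K * L * (K * σ))
    (Real.exp (K * Lg)) (Real.log p / q) (Real.log q / p) lam (3 * R * Lg) h hU hS hp hq hpq hK1 hL1
    hp2 hq2 (by rw [hR, hR₁]; exact Nat.le_mul_of_pos_left _ hHpos)
    (by
      rw [hK, hL, hR₁, hR]
      have h1 : 8 < s ^ 2 := by have := hs2le 2 le_rfl; omega
      calc 8 * (H * s ^ 12 * s ^ 2) ^ 2 = 8 * (H ^ 2 * s ^ 28) := by ring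
        _ < s ^ 2 * (H ^ 2 * s ^ 28) := by
            apply Nat.mul_lt_mul_of_pos_right h1
            exact Nat.mul_pos (Nat.pow_pos hHpos) (hspos 28)
        _ = s ^ 10 * (H * s ^ 10 * (H * s ^ 10)) := by ring)
    (by
      rw [hK, hL, hR₁, hR]
      have h1 : 1 < s ^ 6 := by have := hs2le 6 (by norm_num); omega
      calc H * s ^ 12 * s ^ 2 = 1 * (H * s ^ 14) := by ring
        _ < s ^ 6 * (H * s ^ 14) := by
            apply Nat.mul_lt_mul_of_pos_right h1
            exact Nat.mul_pos hHpos (hspos 14)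
        _ = s ^ 10 * (H * s ^ 10) := by ring)
    (by
      have h1 : 1 + L ≤ R := by
        rw [hL, hR]
        have h2 : s ^ 3 ≤ s ^ 10 := Nat.pow_le_pow_right (by omega) (by norm_num)
        have h3 : 1 * s ^ 10 ≤ H * s ^ 10 := Nat.mul_le_mul_right _ hHpos
        have h4 : s ^ 3 = s ^ 2 * s := by ring
        have h5 : s ^ 2 * 2 ≤ s ^ 2 * s := Nat.mul_le_mul_left _ (by omega)
        have h6 := hspos 2
        omega
      calc 2 * R₁ + q * (2 * R + L) ≤ q + q * (2 * R + L) := Nat.add_le_add_right hq2 _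
        _ = q * (2 * R + (1 + L)) := by ring
        _ ≤ q * (2 * R + R) := Nat.mul_le_mul_left _ (by omega)
        _ = 3 * q * R := by ring)
    (by
      calc p * (2 * R) = 2 * (p * R) := by ring
        _ ≤ 3 * (p * R) := Nat.mul_le_mul_right _ (by norm_num)
        _ = 3 * p * R := by ring)
    (by
      rw [Nat.sub_add_cancel hKs]
      calc (K * s - 1) * (K * s) ≤ (K * s) * (K * s) := Nat.mul_le_mul_right _ (Nat.sub_le _ _)
        _ = K * K * L := by rw [hL]; ring)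
    (by
      have h1 : 2 * (K * σ) + 2 * (K - 1) ≤ K * s - 1 := by
        have h2 : K * s = 4 * (K * σ) := by rw [hs]; ring
        have h3 : K * 1 ≤ K * σ := Nat.mul_le_mul_left _ (by omega)
        omega
      calc 2 * (K * K * L * (K * σ)) + 2 * (K * K * L * (K - 1))
          = K * K * L * (2 * (K * σ) + 2 * (K - 1)) := by ring
        _ ≤ K * K * L * (K * s - 1) := Nat.mul_le_mul_left _ h1)
    (fun k hk z hz => choose_le_B hK1 hq.one_lt.le hk (hz.trans (hZK q)) Lg hp.one_lt.le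
      (by rw [hLg, mul_comm]))
    (fun k hk z hz => choose_le_B hK1 hp.one_lt.le hk (hz.trans (hZK p)) Lg hq.one_lt.le hLg)
    rfl rfl
    (by
      rw [hlam]
      field_simp
      ring)
    hsm (hLx q hq1 hCq _ hLgp) (hLx p hp1 hCp _ hLgq)
    (by
      have h1 : ((3 * q * R : ℕ) : ℝ) * (Real.log p / q) = 3 * R * Real.log p := by
        push_cast; field_simp
      rw [h1]
      exact mul_le_mul_of_nonneg_left hLgp (by positivity))
    (by
      have h1 : ((3 * p * R : ℕ) : ℝ) * (Real.log q / p) = 3 * R * Real.log q := by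
        push_cast; field_simp
      rw [h1]
      exact mul_le_mul_of_nonneg_left hLgq (by positivity))
    hSh
  -- take the root
  obtain ⟨N, hN⟩ : ∃ N : ℕ, N = K * K * L := ⟨_, rfl⟩
  have hNr : (N : ℝ) = K * K * L := by rw [hN]; push_cast; ring
  have hN1 : 1 ≤ N := by rw [hN]; exact Nat.mul_pos (Nat.mul_pos hK1 hK1) hL1
  have hNpos : (0 : ℝ) < N := by exact_mod_cast hN1
  have hK0 : (0 : ℝ) < K := by exact_mod_cast hK1
  rw [← hN, ← hNr] at hmain
  obtain ⟨E, hE⟩ : ∃ E : ℝ, E = L * (K * (Real.log p / q + Real.log q / p) + 8 * (3 * R * Lg)) +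
    L * (2 * R₁) * h := ⟨_, rfl⟩
  rw [← hE] at hmain
  have hEle : E ≤ 2 * K + 24 * (K * Lg) + 2 * K := by
    rw [hE]
    have h1 := hLx q hq1 hCq _ hLgp
    have h2 := hLx p hp1 hCp _ hLgq
    have h3 : (L : ℝ) * (K * (Real.log p / q + Real.log q / p)) ≤ K * 2 := by
      calc (L : ℝ) * (K * (Real.log p / q + Real.log q / p))
          = K * (L * (Real.log p / q) + L * (Real.log q / p)) := by ring
        _ ≤ K * 2 := mul_le_mul_of_nonneg_left (by linarith) hK0.le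
    have h4 : (L : ℝ) * (8 * (3 * R * Lg)) = 24 * (K * Lg) := by
      rw [hLr, hRr, hKr]; ring
    have h5 : (L : ℝ) * (2 * R₁) * h ≤ 2 * K := by
      calc (L : ℝ) * (2 * R₁) * h ≤ (L : ℝ) * (2 * R₁) * H :=
            mul_le_mul_of_nonneg_left hH1 (by positivity)
        _ = 2 * K := by rw [hLr, hR₁r, hKr]; ring
    have h6 : (L : ℝ) * (K * (Real.log p / q + Real.log q / p) + 8 * (3 * R * Lg)) =
        (L : ℝ) * (K * (Real.log p / q + Real.log q / p)) + (L : ℝ) * (8 * (3 * R * Lg)) := by ring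
    rw [h6, h4]
    linarith
  have hlog2 : (0.69 : ℝ) < Real.log 2 := by
    have := Real.log_two_gt_d9
    linarith
  have hlogN : Real.log N ≤ K := by
    have hHr : (1 : ℝ) ≤ H := by exact_mod_cast hHpos
    have hsr1 : (1 : ℝ) ≤ s := by exact_mod_cast (by omega : 1 ≤ s)
    have h1 : (N : ℝ) = H ^ 2 * s ^ 26 := by rw [hNr, hKr, hLr]; ring
    rw [h1, Real.log_mul (by positivity) (by positivity), Real.log_pow, Real.log_pow]
    have h2 : Real.log H ≤ H := (Real.log_le_sub_one_of_pos (by linarith)).trans (by linarith)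
    have h3 : Real.log s ≤ s := (Real.log_le_sub_one_of_pos (by linarith)).trans (by linarith)
    have h4 : (2 : ℕ) * H + 26 * s ≤ K := by
      rw [hK]
      have h5 := hs2le 12 (by norm_num)
      have h6 : s ^ 12 * 1 ≤ s ^ 12 * H := Nat.mul_le_mul_left _ hHpos
      have h7 : H * (s * 240) ≤ H * s ^ 12 := Nat.mul_le_mul_left _ h5
      have h8 : H * (240 * 240) ≤ H * (s * 240) :=
        Nat.mul_le_mul_left _ (Nat.mul_le_mul_right _ hs240)
      have h9 : 1 * (s * 240) ≤ H * (s * 240) := Nat.mul_le_mul_right _ hHpos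
      omega
    have h5 : (2 : ℝ) * H + 26 * s ≤ K := by exact_mod_cast h4
    push_cast
    linarith
  have hlm := Real.log_le_log (by positivity) hmain
  have hfac : Real.log (N.factorial : ℝ) ≤ N * Real.log N := by
    rw [← Real.log_pow]
    apply Real.log_le_log (by exact_mod_cast Nat.factorial_pos N)
    exact_mod_cast Nat.factorial_le_pow N
  have hfac0 : (0 : ℝ) < (N.factorial : ℝ) := by exact_mod_cast Nat.factorial_pos N
  rw [Real.log_pow, Real.log_mul (by positivity) (Real.exp_pos _).ne',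
    Real.log_mul hfac0.ne' (by positivity), Real.log_pow, Real.log_exp,
    Real.log_mul (by norm_num) (by positivity), Real.log_pow, Real.log_exp] at hlm
  have hlog2' : Real.log 2 ≤ 1 := by
    have := Real.log_two_lt_d9
    linarith
  have hKL1 : (K : ℝ) ≤ K * Lg := le_mul_of_one_le_right hK0.le hLg1
  have hK1r : (1 : ℝ) ≤ K := by exact_mod_cast hK1
  -- divide by N
  have h1 : (N : ℝ) * ((K * σ) * Real.log 2) ≤ N * (32 * (K * Lg)) := by
    have h2 : ((N * (K * σ) : ℕ) : ℝ) * Real.log 2 = N * ((K * σ) * Real.log 2) := by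
      push_cast; ring
    rw [← h2]
    refine hlm.trans ?_
    have h3 : Real.log (N.factorial : ℝ) + N * (Real.log 2 + (2 : ℕ) * (K * Lg)) + N * E ≤
        N * (Real.log N + (Real.log 2 + 2 * (K * Lg)) + E) := by
      push_cast
      linarith
    refine h3.trans ?_
    apply mul_le_mul_of_nonneg_left _ hNpos.le
    linarith
  have h2 := le_of_mul_le_mul_left h1 hNpos
  have h3 : (K : ℝ) * (60 * Lg) * 0.69 ≤ (K * σ) * Real.log 2 := by
    apply mul_le_mul _ hlog2.le (by norm_num) (by positivity)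
    exact mul_le_mul_of_nonneg_left hσ1 hK0.le
  have h4 : 0 < (K : ℝ) * Lg := by positivity
  nlinarith

end Pool.Agent.Work.MP_2738db_nt_Y.helper82
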