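import Pool.Agent.Work.MP_2738db_nt_Y.Interface5

/-!
Theorem Y, phase 5, blocks KUP and KUQ: the relation between `x - ζ ^ j Y` and its conjugate.
-/

set_option autoImplicit false
set_option linter.unusedSectionVars false

namespace Pool.Agent.Work.MP_2738db_nt_Y.helper82

open Finset NumberField
open Pool.Agent.Work.MP_2738db_nt_A (HB)
open Pool.Agent.Work.MP_2738db_nt_Y

section
variable {K : Type} [Field K] [NumberField K]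

theorem tau_zeta_gen {n : ℕ} (hn : 1 ≤ n) {ζ : 𝓞 K} (hζ : IsPrimitiveRoot ζ n)
    {τ : 𝓞 K ≃+* 𝓞 K} (hτ : IsConjugation K τ) : τ ζ = ζ ^ (n - 1) := by
  obtain ⟨φ⟩ : Nonempty (K →+* ℂ) := inferInstance
  have hinj : Function.Injective (fun z : 𝓞 K => φ (z : K)) :=
    φ.injective.comp RingOfIntegers.coe_injective
  apply hinj
  show φ ((τ ζ : 𝓞 K) : K) = φ ((ζ ^ (n - 1) : 𝓞 K) : K)
  rw [hτ φ ζ]
  have h8 : φ (ζ : K) ^ n = 1 := by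
    rw [← map_pow]
    have : ((ζ : K)) ^ n = ((ζ ^ n : 𝓞 K) : K) := by simp
    rw [this, hζ.pow_eq_one]
    simp
  have hn1 : ‖φ (ζ : K)‖ = 1 := by
    have h1 : ‖φ (ζ : K)‖ ^ n = 1 := by rw [← norm_pow, h8, norm_one]
    exact (pow_eq_one_iff_of_nonneg (norm_nonneg _) (by omega)).mp h1
  have hne : φ (ζ : K) ≠ 0 := by
    intro h
    rw [h, norm_zero] at hn1
    exact zero_ne_one hn1
  have e1 : starRingEnd ℂ (φ (ζ : K)) * φ (ζ : K) = 1 := by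
    rw [mul_comm, Complex.mul_conj, Complex.normSq_eq_norm_sq, hn1]
    norm_num
  have e2 : φ ((ζ ^ (n - 1) : 𝓞 K) : K) * φ (ζ : K) = 1 := by
    have : φ ((ζ ^ (n - 1) : 𝓞 K) : K) = φ (ζ : K) ^ (n - 1) := by simp
    rw [this, ← pow_succ, Nat.sub_add_cancel hn, h8]
  exact mul_right_cancel₀ hne (e1.trans e2.symm)

/-- conjugation preserves the absolute values -/
theorem hb_tau {τ : 𝓞 K ≃+* 𝓞 K} (hτ : IsConjugation K τ) {α : 𝓞 K} {h : ℝ} (hα : HB K α h) :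
    HB K (τ α) h := by
  intro v
  have h1 := hα v
  rw [← InfinitePlace.norm_embedding_eq v] at h1 ⊢
  rw [hτ v.embedding α, RCLike.norm_conj]
  exact h1

theorem tau_z {τ : 𝓞 K ≃+* 𝓞 K} {ζ : 𝓞 K} (x Y : ℤ) (j : ℕ) :
    τ ((x : 𝓞 K) - ζ ^ j * (Y : 𝓞 K)) = (x : 𝓞 K) - τ (ζ ^ j) * (Y : 𝓞 K) := by
  rw [map_sub, map_mul, map_intCast, map_intCast]

theorem krel_of {τ : 𝓞 K ≃+* 𝓞 K} (hτ : IsConjugation K τ) {n : ℕ} {ζ : 𝓞 K} {x Y : ℤ}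
    {c k j : ℕ} {S : ℝ} {𝔇 𝔞 : Ideal (𝓞 K)} (hk : 1 ≤ k)
    (hz : Ideal.span {(x : 𝓞 K) - ζ ^ j * (Y : 𝓞 K)} = 𝔇 * 𝔞 ^ k)
    (hP : ∀ P : Ideal (𝓞 K), P.IsPrime → 𝔞 ≤ P → (n : 𝓞 K) ∉ P)
    (hkum : ∃ (s : ℕ) (α : 𝓞 K), 1 ≤ s ∧ (s : ℝ) ≤ S ∧ α ≠ 0 ∧
      Ideal.span {α} = 𝔞 ^ s ∧ HB K α (S * Real.log c) ∧
      ((x : 𝓞 K) - ζ ^ j * (Y : 𝓞 K)) ^ s * (τ α) ^ k =
        (τ ((x : 𝓞 K) - ζ ^ j * (Y : 𝓞 K))) ^ s * α ^ k) :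
    KRel K n ζ τ S x Y c k j := by
  obtain ⟨s, α, hs1, hsS, _, hα, hHB, hrel⟩ := hkum
  have hmain : ∀ P : Ideal (𝓞 K), P.IsPrime → α ∈ P →
      (x : 𝓞 K) - ζ ^ j * (Y : 𝓞 K) ∈ P ∧ (n : 𝓞 K) ∉ P := by
    intro P hPp hαP
    have h1 : 𝔞 ^ s ≤ P := by
      rw [← hα, Ideal.span_singleton_le_iff_mem]
      exact hαP
    have h2 : 𝔞 ≤ P := hPp.le_of_pow_le h1
    refine ⟨?_, hP P hPp h2⟩
    rw [← Ideal.span_singleton_le_iff_mem, hz]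
    exact (Ideal.mul_le_right).trans ((Ideal.pow_le_self (Nat.one_le_iff_ne_zero.mp hk)).trans h2)
  refine ⟨s, α, hs1, hsS, hHB, hb_tau hτ hHB, ?_, hmain, ?_⟩
  · rw [hrel, tau_z]
  · intro P hPp hαP
    have hP' : (P.comap (τ : 𝓞 K →+* 𝓞 K)).IsPrime := Ideal.IsPrime.comap _
    obtain ⟨h1, h2⟩ := hmain (P.comap (τ : 𝓞 K →+* 𝓞 K)) hP' (by
      rw [Ideal.mem_comap]
      exact hαP)
    refine ⟨?_, ?_⟩
    · rw [Ideal.mem_comap] at h1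
      rw [← tau_z]
      exact h1
    · intro h
      apply h2
      rw [Ideal.mem_comap, map_natCast]
      exact h

theorem map_tau_top (τ : 𝓞 K ≃+* 𝓞 K) :
    (⊤ : Ideal (𝓞 K)).map (τ : 𝓞 K →+* 𝓞 K) = ⊤ := Ideal.map_top _

theorem map_tau_one_sub {n : ℕ} (hn : 1 ≤ n) {ζ : 𝓞 K} (hζ : IsPrimitiveRoot ζ n)
    {τ : 𝓞 K ≃+* 𝓞 K} (hτ : IsConjugation K τ) :
    (Ideal.span {1 - ζ}).map (τ : 𝓞 K →+* 𝓞 K) = Ideal.span {1 - ζ} := by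
  have h1 : ζ ^ (n - 1) * ζ = 1 := by
    rw [← pow_succ, Nat.sub_add_cancel hn, hζ.pow_eq_one]
  have h2 : (τ : 𝓞 K →+* 𝓞 K) (1 - ζ) = 1 - ζ ^ (n - 1) := by
    rw [map_sub, map_one]
    show 1 - τ ζ = _
    rw [tau_zeta_gen hn hζ hτ]
  rw [Ideal.map_span, Set.image_singleton, h2]
  apply le_antisymm
  · rw [Ideal.span_singleton_le_span_singleton]
    exact ⟨-ζ ^ (n - 1), by linear_combination (-1 : 𝓞 K) * h1⟩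
  · rw [Ideal.span_singleton_le_span_singleton]
    exact ⟨-ζ, by linear_combination (-1 : 𝓞 K) * h1⟩

/-- `x - ζ ^ j Y` is not `0` -/
theorem z_ne_zero {n : ℕ} {ζ : 𝓞 K} (hζ : IsPrimitiveRoot ζ n) {x Y : ℤ} {c k j : ℕ}
    (hc : 2 ≤ c) (h : x ^ n - Y ^ n = (c : ℤ) ^ k ∨ x ^ n - Y ^ n = -(c : ℤ) ^ k) :
    (x : 𝓞 K) - ζ ^ j * (Y : 𝓞 K) ≠ 0 := by
  intro h0
  have h1 : (x : 𝓞 K) = ζ ^ j * (Y : 𝓞 K) := sub_eq_zero.mp h0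
  have h2 : (x : 𝓞 K) ^ n - (Y : 𝓞 K) ^ n = 0 := by
    rw [h1, mul_pow, ← pow_mul, mul_comm j n, pow_mul, hζ.pow_eq_one, one_pow, one_mul, sub_self]
  have h3 : ((x ^ n - Y ^ n : ℤ) : 𝓞 K) = 0 := by
    push_cast
    exact h2
  have h4 : x ^ n - Y ^ n = 0 := by exact_mod_cast h3
  have h5 : (c : ℤ) ^ k ≠ 0 := pow_ne_zero _ (by
    have : c ≠ 0 := by omega
    exact_mod_cast this)
  rcases h with h | h
  · exact h5 (h.symm.trans h4)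
  · have : -(c : ℤ) ^ k = 0 := h.symm.trans h4
    exact h5 (neg_eq_zero.mp this)

end

theorem kup : Stmt_Kum → Stmt_Idp → Stmt_Id4 → Stmt_Kup := by
  rintro ⟨C, hC1, hC⟩ hidp hid4
  refine ⟨2 * C, by linarith, ?_⟩
  intro K _ _ n ζ τ x Y c k j hn hζ hτ hfr hdisc hcop hc hk heq hj
  have hn3 : 3 ≤ n := by
    rcases hn with ⟨_, h⟩ | h <;> omega
  have hnR : (3 : ℝ) ≤ (n : ℝ) := by exact_mod_cast hn3
  have hH2 : (2 : ℝ) ≤ (n : ℝ) ^ 2 := by nlinarith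
  have hHf : (Module.finrank ℚ K : ℝ) ≤ (n : ℝ) ^ 2 := hfr.trans (by nlinarith)
  have hpow : ((n : ℝ) ^ 2) ^ C = (n : ℝ) ^ (2 * C) := by
    rw [Real.rpow_mul (by positivity)]
    norm_num
  -- the ideals
  obtain ⟨𝔇, 𝔞, hz, hD, ha, hP⟩ : ∃ 𝔇 𝔞 : Ideal (𝓞 K),
      Ideal.span {(x : 𝓞 K) - ζ ^ j * (Y : 𝓞 K)} = 𝔇 * 𝔞 ^ k ∧
      (𝔇 = ⊤ ∨ 𝔇 = Ideal.span {1 - ζ}) ∧ 𝔞 ∣ Ideal.span {(c : 𝓞 K)} ∧
      (∀ P : Ideal (𝓞 K), P.IsPrime → 𝔞 ≤ P → (n : 𝓞 K) ∉ P) := by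
    rcases hn with ⟨hp, _⟩ | rfl
    · have hnj : ¬ n ∣ j := (hp.coprime_iff_not_dvd).mp hj.symm
      obtain ⟨𝔇, 𝔞, h1, h2, h3, h4, _⟩ :=
        hidp K n ζ x Y c k j hp hn3 hζ hcop (by omega) hk heq hnj
      exact ⟨𝔇, 𝔞, h1, h2, h3, h4⟩
    · have hodd : Odd j := by
        have h2 : Nat.Coprime j 2 := Nat.Coprime.coprime_dvd_right (by norm_num) hj
        exact (Nat.coprime_two_right).mp h2
      obtain ⟨𝔇, 𝔞, h1, h2, h3, h4⟩ := hid4 K ζ x Y c k j hζ hcop (by omega) hk heq hodd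
      exact ⟨𝔇, 𝔞, h1, h2, h3, fun P hP hle => by exact_mod_cast h4 P hP hle⟩
  have hDτ : 𝔇.map (τ : 𝓞 K →+* 𝓞 K) = 𝔇 := by
    rcases hD with rfl | rfl
    · exact map_tau_top τ
    · exact map_tau_one_sub (by omega) hζ hτ
  have := hC K τ ((n : ℝ) ^ 2) ((x : 𝓞 K) - ζ ^ j * (Y : 𝓞 K)) c k 𝔇 𝔞 hτ hH2 hHf hdisc
    (z_ne_zero hζ hc heq) hz hDτ ha hc
  rw [hpow] at this
  exact krel_of hτ hk hz hP this

theorem kuq : Stmt_Kum → Stmt_Id8 → Stmt_Kuq := by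
  rintro ⟨C, hC1, hC⟩ hid8
  refine ⟨Real.exp ((64 : ℝ) ^ C), Real.one_le_exp (by positivity), ?_⟩
  intro K _ _ ζ τ x Y c k j hζ hτ hfr hdisc hcop hc hk heq hodd
  obtain ⟨𝔞, hz, ha, hP⟩ := hid8 K ζ x Y c k j hζ hcop (by omega) hk heq hodd
  have hz' : Ideal.span {(x : 𝓞 K) - ζ ^ j * (Y : 𝓞 K)} = ⊤ * 𝔞 ^ k := by
    rw [hz, Ideal.top_mul]
  have h48 : ζ ^ 4 = -1 := by
    have h8 : ζ ^ 8 = 1 := hζ.pow_eq_one
    have h4 : ζ ^ 4 ≠ 1 := hζ.pow_ne_one_of_pos_of_lt (by norm_num) (by norm_num)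
    have h : (ζ ^ 4 - 1) * (ζ ^ 4 + 1) = 0 := by
      have : (ζ ^ 4 - 1) * (ζ ^ 4 + 1) = ζ ^ 8 - 1 := by ring
      rw [this, h8, sub_self]
    rcases mul_eq_zero.mp h with h | h
    · exact absurd (sub_eq_zero.mp h) h4
    · exact eq_neg_of_add_eq_zero_left h
  have hne : (x : 𝓞 K) - ζ ^ j * (Y : 𝓞 K) ≠ 0 := by
    intro h0
    have h1 : (x : 𝓞 K) = ζ ^ j * (Y : 𝓞 K) := sub_eq_zero.mp h0
    have h2 : (x : 𝓞 K) ^ 4 + (Y : 𝓞 K) ^ 4 = 0 := by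
      rw [h1, mul_pow, ← pow_mul, mul_comm j 4, pow_mul, h48, hodd.neg_one_pow]
      ring
    have h3 : ((x ^ 4 + Y ^ 4 : ℤ) : 𝓞 K) = 0 := by
      push_cast
      exact h2
    have h4 : x ^ 4 + Y ^ 4 = 0 := by exact_mod_cast h3
    have h5 : (c : ℤ) ^ k ≠ 0 := pow_ne_zero _ (by
      have : c ≠ 0 := by omega
      exact_mod_cast this)
    exact h5 (heq.symm.trans h4)
  have := hC K τ 64 ((x : 𝓞 K) - ζ ^ j * (Y : 𝓞 K)) c k ⊤ 𝔞 hτ (by norm_num)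
    (hfr.trans (by norm_num)) hdisc hne hz' (map_tau_top τ) ha hc
  exact krel_of hτ (by omega) hz' (fun P hP' hle => by exact_mod_cast hP P hP' hle) this

end Pool.Agent.Work.MP_2738db_nt_Y.helper82
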