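import Pool.Agent.Work.MP_2738db_nt_Y.Interface3
import Pool.Agent.Work.MP_2738db_nt_Y_helper82.LF3

set_option autoImplicit false

/-!
The `r`-adic linear form in three logarithms (block LF3R of theorem Y, helper82).
-/

namespace Pool.Agent.Work.MP_2738db_nt_Y.helper82

open Finset BigOperators
open Pool.Agent.Work.MP_2738db_nt_Y

lemma one_mod {r U : ℕ} (hr : r.Prime) (hU : ¬ r ∣ U) :
    (r : ℤ) ∣ ((U ^ (2 * (r - 1)) : ℕ) : ℤ) - 1 := by
  have h1 : IsCoprime (U : ℤ) (r : ℤ) := by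
    rw [Nat.isCoprime_iff_coprime]
    exact (Nat.Coprime.symm ((Nat.Prime.coprime_iff_not_dvd hr).mpr hU))
  have h2 := Int.ModEq.pow_card_sub_one_eq_one hr h1
  have h3 := (h2.pow 2)
  rw [one_pow, ← pow_mul] at h3
  have h4 := h3.symm.dvd
  push_cast
  rwa [mul_comm 2 (r - 1)]

theorem lf3r : Stmt_Corr → Stmt_Lf3r := by
  intro hcore
  refine ⟨4 * 244 ^ 13, by norm_num, ?_⟩
  intro r U S p q V h hr hp hq hpq hrp hrq hrU hrS hh hUh hSh hCp hCq hdiv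
  by_contra hcon
  rw [not_le] at hcon
  have hU : 1 ≤ U := by
    rcases Nat.eq_zero_or_pos U with h0 | h0
    · exact absurd (h0 ▸ dvd_zero r) hrU
    · exact h0
  have hS : 1 ≤ S := by
    rcases Nat.eq_zero_or_pos S with h0 | h0
    · exact absurd (h0 ▸ dvd_zero r) hrS
    · exact h0
  have hp1 : (1 : ℝ) ≤ p := by exact_mod_cast hp.one_lt.le
  have hq1 : (1 : ℝ) ≤ q := by exact_mod_cast hq.one_lt.le
  have hr2 : (2 : ℝ) ≤ r := by exact_mod_cast hr.two_le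
  have hr0 : (0 : ℝ) < r := by linarith
  have hp0 : (0 : ℝ) < p := by linarith
  have hq0 : (0 : ℝ) < q := by linarith
  have hlp : 0 ≤ Real.log p := Real.log_nonneg hp1
  have hlq : 0 ≤ Real.log q := Real.log_nonneg hq1
  have hlpq : Real.log (p * q) = Real.log p + Real.log q := Real.log_mul hp0.ne' hq0.ne'
  obtain ⟨Lg, hLg⟩ : ∃ Lg : ℝ, Lg = 1 + Real.log (p * q) := ⟨_, rfl⟩
  rw [← hLg] at hCp hCq hcon
  have hLgp : Real.log p ≤ Lg := by rw [hLg, hlpq]; linarith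
  have hLgq : Real.log q ≤ Lg := by rw [hLg, hlpq]; linarith
  have hLg1 : 1 ≤ Lg := by rw [hLg, hlpq]; linarith
  have hLg0 : 0 ≤ Lg := by linarith
  obtain ⟨ρ, hρ⟩ : ∃ ρ : ℝ, ρ = r * Lg := ⟨_, rfl⟩
  rw [← hρ] at hCp hCq
  have hρ1 : 1 ≤ ρ := by rw [hρ]; nlinarith
  have hρ0 : 0 ≤ ρ := by linarith
  have hLρ : Lg ≤ ρ := by rw [hρ]; nlinarith
  have hrρ : (r : ℝ) ≤ ρ := by rw [hρ]; nlinarith
  obtain ⟨σ, hσ⟩ : ∃ σ : ℕ, σ = ⌈60 * ρ⌉₊ := ⟨_, rfl⟩
  have hσ1 : 60 * ρ ≤ σ := by rw [hσ]; exact Nat.le_ceil _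
  have hσ2 : (σ : ℝ) ≤ 61 * ρ := by
    have h1 : (σ : ℝ) < 60 * ρ + 1 := by rw [hσ]; exact Nat.ceil_lt_add_one (by positivity)
    linarith
  obtain ⟨s, hs⟩ : ∃ s : ℕ, s = 4 * σ := ⟨_, rfl⟩
  have hsr : (s : ℝ) = 4 * σ := by rw [hs]; push_cast; ring
  have hs1 : 240 * ρ ≤ s := by rw [hsr]; linarith
  have hs2 : (s : ℝ) ≤ 244 * ρ := by rw [hsr]; linarith
  have hs240 : 240 ≤ s := by
    have : (240 : ℝ) ≤ s := by linarith
    exact_mod_cast this
  obtain ⟨H, hH⟩ : ∃ H : ℕ, H = ⌈h⌉₊ := ⟨_, rfl⟩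
  have hH1 : h ≤ H := by rw [hH]; exact Nat.le_ceil _
  have hH2 : (H : ℝ) ≤ 2 * h := by
    have h1 : (H : ℝ) < h + 1 := by rw [hH]; exact Nat.ceil_lt_add_one (by linarith)
    linarith
  have hHpos : 1 ≤ H := by
    have : (1 : ℝ) ≤ H := by linarith
    exact_mod_cast this
  have hs0r : (0 : ℝ) ≤ s := by positivity
  have hspow : ∀ n : ℕ, (s : ℝ) ^ n ≤ 244 ^ n * ρ ^ n := by
    intro n
    rw [← mul_pow]
    exact pow_le_pow_left₀ hs0r hs2 n
  have hspos : ∀ n : ℕ, 1 ≤ s ^ n := fun n => Nat.one_le_pow _ _ (by omega)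
  -- parameters
  obtain ⟨L, hL⟩ : ∃ L : ℕ, L = s ^ 2 := ⟨_, rfl⟩
  obtain ⟨K, hK⟩ : ∃ K : ℕ, K = H * s ^ 12 := ⟨_, rfl⟩
  obtain ⟨R₁, hR₁⟩ : ∃ R₁ : ℕ, R₁ = s ^ 10 := ⟨_, rfl⟩
  obtain ⟨R, hR⟩ : ∃ R : ℕ, R = H * s ^ 10 := ⟨_, rfl⟩
  have hK1 : 1 ≤ K := by rw [hK]; exact Nat.mul_pos hHpos (hspos 12)
  have hL1 : 1 ≤ L := by rw [hL]; exact hspos 2
  have hR₁p : ∀ x : ℕ, (4 * 244 ^ 13 : ℝ) * ρ ^ 10 ≤ x → 2 * R₁ ≤ x := by
    intro x hx
    have h1 : (2 * R₁ : ℝ) ≤ x := by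
      rw [hR₁]
      push_cast
      have h2 := hspow 10
      have h3 : (0 : ℝ) ≤ ρ ^ 10 := by positivity
      calc 2 * (s : ℝ) ^ 10 ≤ 2 * (244 ^ 10 * ρ ^ 10) := by linarith
        _ ≤ 4 * 244 ^ 13 * ρ ^ 10 := by nlinarith
        _ ≤ x := hx
    exact_mod_cast h1
  have hp2 := hR₁p p hCp
  have hq2 := hR₁p q hCq
  have hKs : (K : ℕ) * s ≥ 1 := Nat.mul_pos hK1 (by omega)
  have hKr : (K : ℝ) = H * s ^ 12 := by rw [hK]; push_cast; ring
  have hLr : (L : ℝ) = s ^ 2 := by rw [hL]; push_cast; ring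
  have hRr : (R : ℝ) = H * s ^ 10 := by rw [hR]; push_cast; ring
  have hR₁r : (R₁ : ℝ) = s ^ 10 := by rw [hR₁]; push_cast; ring
  -- V is large
  have hVbig : K * s - 1 ≤ V := by
    have h1 : Real.log r ≤ r := (Real.log_le_sub_one_of_pos hr0).trans (by linarith)
    have h2 : (V : ℝ) * Real.log r ≤ V * r := mul_le_mul_of_nonneg_left h1 (by positivity)
    have h3 : (r : ℝ) * (4 * 244 ^ 13 * h * (r ^ 13 * Lg ^ 13)) < r * V := by
      calc (r : ℝ) * (4 * 244 ^ 13 * h * (r ^ 13 * Lg ^ 13)) = 4 * 244 ^ 13 * r ^ 14 * h * Lg ^ 13 := by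
            ring
        _ < V * Real.log r := hcon
        _ ≤ V * r := h2
        _ = r * V := by ring
    have h4 : (4 : ℝ) * 244 ^ 13 * h * (r ^ 13 * Lg ^ 13) < V := lt_of_mul_lt_mul_left h3 hr0.le
    have h5 : (K : ℝ) * s ≤ 4 * 244 ^ 13 * h * (r ^ 13 * Lg ^ 13) := by
      have h6 : (K : ℝ) * s = H * s ^ 13 := by rw [hKr]; ring
      have h7 := hspow 13
      have h8 : (H : ℝ) * s ^ 13 ≤ (2 * h) * (244 ^ 13 * ρ ^ 13) :=
        mul_le_mul hH2 h7 (by positivity) (by linarith)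
      have h9 : ρ ^ 13 = r ^ 13 * Lg ^ 13 := by rw [hρ, mul_pow]
      rw [h6]
      refine h8.trans ?_
      rw [h9]
      have h10 : 0 ≤ h * (244 ^ 13 * ((r : ℝ) ^ 13 * Lg ^ 13)) := by positivity
      linarith
    have h6 : ((K * s : ℕ) : ℝ) < V := by
      push_cast
      exact h5.trans_lt h4
    have h7 : K * s < V := by exact_mod_cast h6
    omega
  have hs2le : ∀ n : ℕ, 2 ≤ n → s * 240 ≤ s ^ n := by
    intro n hn
    calc s * 240 ≤ s * s := Nat.mul_le_mul_left _ hs240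
      _ = s ^ 2 := by ring
      _ ≤ s ^ n := Nat.pow_le_pow_right (by omega) hn
  have hZK : ∀ x : ℕ, 3 * x * R ≤ K * x := by
    intro x
    rw [hR, hK]
    have h1 : 3 ≤ s ^ 2 := by have := hs2le 2 le_rfl; omega
    calc 3 * x * (H * s ^ 10) = 3 * (x * H * s ^ 10) := by ring
      _ ≤ s ^ 2 * (x * H * s ^ 10) := Nat.mul_le_mul_right _ h1
      _ = H * s ^ 12 * x := by ring
  have hLR : 1 + L ≤ R := by
    rw [hL, hR]
    have h2 : s ^ 3 ≤ s ^ 10 := Nat.pow_le_pow_right (by omega) (by norm_num)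
    have h3 : 1 * s ^ 10 ≤ H * s ^ 10 := Nat.mul_le_mul_right _ hHpos
    have h4 : s ^ 3 = s ^ 2 * s := by ring
    have h5 : s ^ 2 * 2 ≤ s ^ 2 * s := Nat.mul_le_mul_left _ (by omega)
    have h6 := hspos 2
    omega
  -- the four numbers
  have hrpn : ¬ r ∣ p := fun hd => hrp ((Nat.prime_dvd_prime_iff_eq hr hp).mp hd)
  have hrqn : ¬ r ∣ q := fun hd => hrq ((Nat.prime_dvd_prime_iff_eq hr hq).mp hd)
  have hr1 : 1 ≤ r - 1 := by have := hr.two_le; omega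
  have hlogpow : ∀ (x : ℕ) (y : ℝ), 1 ≤ x → Real.log x ≤ y → 0 ≤ y →
      Real.log ((x ^ (2 * (r - 1)) : ℕ) : ℝ) ≤ 2 * r * y := by
    intro x y hx hy hy0
    have hx0 : 0 ≤ Real.log x := Real.log_nonneg (by exact_mod_cast hx)
    push_cast
    rw [Real.log_pow]
    have h1 : ((2 * (r - 1) : ℕ) : ℝ) ≤ 2 * r := by
      have h2 : 2 * (r - 1) ≤ 2 * r := by omega
      exact_mod_cast h2
    calc ((2 * (r - 1) : ℕ) : ℝ) * Real.log x ≤ (2 * r) * Real.log x :=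
          mul_le_mul_of_nonneg_right h1 hx0
      _ ≤ 2 * r * y := mul_le_mul_of_nonneg_left hy (by positivity)
  have hdiv2 : (r : ℤ) ^ V ∣ ((U ^ (2 * (r - 1)) : ℕ) : ℤ) ^ (p * q) *
      ((q ^ (2 * (r - 1)) : ℕ) : ℤ) ^ q -
      ((S ^ (2 * (r - 1)) : ℕ) : ℤ) ^ (p * q) * ((p ^ (2 * (r - 1)) : ℕ) : ℤ) ^ p := by
    have h1 := hdiv.trans (sub_dvd_pow_sub_pow (((U : ℤ) ^ (p * q) * (q : ℤ) ^ q) ^ 2)
      (((S : ℤ) ^ (p * q) * (p : ℤ) ^ p) ^ 2) (r - 1))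
    have h2 : ((U ^ (2 * (r - 1)) : ℕ) : ℤ) ^ (p * q) * ((q ^ (2 * (r - 1)) : ℕ) : ℤ) ^ q -
      ((S ^ (2 * (r - 1)) : ℕ) : ℤ) ^ (p * q) * ((p ^ (2 * (r - 1)) : ℕ) : ℤ) ^ p =
      (((U : ℤ) ^ (p * q) * (q : ℤ) ^ q) ^ 2) ^ (r - 1) -
        (((S : ℤ) ^ (p * q) * (p : ℤ) ^ p) ^ 2) ^ (r - 1) := by
      push_cast
      ring
    rw [h2]
    exact h1
  have hmain := hcore r V (U ^ (2 * (r - 1))) (S ^ (2 * (r - 1))) (p ^ (2 * (r - 1)))
    (q ^ (2 * (r - 1))) p q K L R₁ R (3 * q * R) (3 * p * R) (K * s - 1) (K * K * L * (K * σ))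
    (Real.exp (K * Lg)) (2 * r * h) hr hp hq hpq hrp hrq
    (Nat.one_le_pow _ _ (by omega)) (Nat.one_le_pow _ _ (by omega))
    (by
      have h1 : p ^ 1 ≤ p ^ (2 * (r - 1)) := Nat.pow_le_pow_right hp.pos (by omega)
      have h2 := hp.two_le
      rw [pow_one] at h1
      omega)
    (Nat.one_le_pow _ _ hq.pos)
    (one_mod hr hrU) (one_mod hr hrS) (one_mod hr hrpn) (one_mod hr hrqn) hdiv2 hK1 hL1
    hp2 hq2 (by rw [hR, hR₁]; exact Nat.le_mul_of_pos_left _ hHpos)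
    (by
      rw [hK, hL, hR₁, hR]
      have h1 : 8 < s ^ 2 := by have := hs2le 2 le_rfl; omega
      calc 8 * (H * s ^ 12 * s ^ 2) ^ 2 = 8 * (H ^ 2 * s ^ 28) := by ring
        _ < s ^ 2 * (H ^ 2 * s ^ 28) := by
            apply Nat.mul_lt_mul_of_pos_right h1
            exact Nat.mul_pos (Nat.pow_pos hHpos) (hspos 28)
        _ = s ^ 10 * (H * s ^ 10 * (H * s ^ 10)) := by ring)
    (by
      rw [hK, hL, hR₁, hR]
      have h1 : 1 < s ^ 6 := by have := hs2le 6 (by norm_num); omega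
      calc H * s ^ 12 * s ^ 2 = 1 * (H * s ^ 14) := by ring
        _ < s ^ 6 * (H * s ^ 14) := by
            apply Nat.mul_lt_mul_of_pos_right h1
            exact Nat.mul_pos hHpos (hspos 14)
        _ = s ^ 10 * (H * s ^ 10) := by ring)
    (by
      calc 2 * R₁ + q * (2 * R + L) ≤ q + q * (2 * R + L) := Nat.add_le_add_right hq2 _
        _ = q * (2 * R + (1 + L)) := by ring
        _ ≤ q * (2 * R + R) := Nat.mul_le_mul_left _ (by omega)
        _ = 3 * q * R := by ring)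
    (by
      calc p * (2 * R) = 2 * (p * R) := by ring
        _ ≤ 3 * (p * R) := Nat.mul_le_mul_right _ (by norm_num)
        _ = 3 * p * R := by ring)
    (by
      rw [Nat.sub_add_cancel hKs]
      calc (K * s - 1) * (K * s) ≤ (K * s) * (K * s) := Nat.mul_le_mul_right _ (Nat.sub_le _ _)
        _ = K * K * L := by rw [hL]; ring)
    (by
      have h1 : 2 * (K * σ) + 2 * (K - 1) ≤ K * s - 1 := by
        have h2 : K * s = 4 * (K * σ) := by rw [hs]; ring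
        have h3 : K * 1 ≤ K * σ := Nat.mul_le_mul_left _ (by omega)
        omega
      calc 2 * (K * K * L * (K * σ)) + 2 * (K * K * L * (K - 1))
          = K * K * L * (2 * (K * σ) + 2 * (K - 1)) := by ring
        _ ≤ K * K * L * (K * s - 1) := Nat.mul_le_mul_left _ h1)
    hVbig
    (fun k hk z hz => choose_le_B hK1 hq.one_lt.le hk (hz.trans (hZK q)) Lg hp.one_lt.le
      (by rw [hLg, mul_comm]))
    (fun k hk z hz => choose_le_B hK1 hp.one_lt.le hk (hz.trans (hZK p)) Lg hq.one_lt.le hLg)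
    (hlogpow U h hU hUh (by linarith)) (hlogpow S h hS hSh (by linarith))
  -- take the root
  have hlPb := hlogpow p Lg hp.one_lt.le hLgp hLg0
  have hlQb := hlogpow q Lg hq.one_lt.le hLgq hLg0
  obtain ⟨N, hN⟩ : ∃ N : ℕ, N = K * K * L := ⟨_, rfl⟩
  have hNr : (N : ℝ) = K * K * L := by rw [hN]; push_cast; ring
  have hN1 : 1 ≤ N := by rw [hN]; exact Nat.mul_pos (Nat.mul_pos hK1 hK1) hL1
  have hNpos : (0 : ℝ) < N := by exact_mod_cast hN1
  have hK0 : (0 : ℝ) < K := by exact_mod_cast hK1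
  rw [← hN, ← hNr] at hmain
  obtain ⟨E, hE⟩ : ∃ E : ℝ, E = L * (2 * R₁ * (2 * r * h) + (2 * R + L) *
    Real.log ((p ^ (2 * (r - 1)) : ℕ) : ℝ) + 2 * R * Real.log ((q ^ (2 * (r - 1)) : ℕ) : ℝ)) :=
    ⟨_, rfl⟩
  rw [← hE] at hmain
  have hEle : E ≤ 14 * (K * ρ) := by
    rw [hE]
    have h1 : (L : ℝ) ≤ R := by
      have : L ≤ R := by omega
      exact_mod_cast this
    have h2 : (2 * (R : ℝ) + L) * Real.log ((p ^ (2 * (r - 1)) : ℕ) : ℝ) ≤ 3 * R * (2 * r * Lg) := by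
      calc (2 * (R : ℝ) + L) * Real.log ((p ^ (2 * (r - 1)) : ℕ) : ℝ)
          ≤ (2 * (R : ℝ) + L) * (2 * r * Lg) := mul_le_mul_of_nonneg_left hlPb (by positivity)
        _ ≤ 3 * R * (2 * r * Lg) := mul_le_mul_of_nonneg_right (by linarith) (by positivity)
    have h3 : 2 * (R : ℝ) * Real.log ((q ^ (2 * (r - 1)) : ℕ) : ℝ) ≤ 2 * R * (2 * r * Lg) :=
      mul_le_mul_of_nonneg_left hlQb (by positivity)
    have h4 : (L : ℝ) * (2 * R₁ * (2 * r * h)) ≤ 4 * (K * ρ) := by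
      calc (L : ℝ) * (2 * R₁ * (2 * r * h)) = 4 * (s ^ 12 * r) * h := by rw [hLr, hR₁r]; ring
        _ ≤ 4 * (s ^ 12 * r) * H := mul_le_mul_of_nonneg_left hH1 (by positivity)
        _ = 4 * (K * r) := by rw [hKr]; ring
        _ ≤ 4 * (K * ρ) := by
            have := mul_le_mul_of_nonneg_left hrρ hK0.le
            linarith
    have h5 : (L : ℝ) * (5 * R * (2 * r * Lg)) = 10 * (K * ρ) := by
      rw [hLr, hRr, hKr, hρ]; ring
    calc (L : ℝ) * (2 * R₁ * (2 * r * h) + (2 * R + L) *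
          Real.log ((p ^ (2 * (r - 1)) : ℕ) : ℝ) + 2 * R * Real.log ((q ^ (2 * (r - 1)) : ℕ) : ℝ))
        ≤ (L : ℝ) * (2 * R₁ * (2 * r * h) + 3 * R * (2 * r * Lg) + 2 * R * (2 * r * Lg)) := by
          apply mul_le_mul_of_nonneg_left _ (by positivity)
          linarith
      _ = (L : ℝ) * (2 * R₁ * (2 * r * h)) + (L : ℝ) * (5 * R * (2 * r * Lg)) := by ring
      _ ≤ 14 * (K * ρ) := by rw [h5]; linarith
  have hlog2 : (0.69 : ℝ) < Real.log 2 := by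
    have := Real.log_two_gt_d9
    linarith
  have hlogr : Real.log 2 ≤ Real.log r := Real.log_le_log (by norm_num) hr2
  have hlogN : Real.log N ≤ K := by
    have hHr : (1 : ℝ) ≤ H := by exact_mod_cast hHpos
    have hsr1 : (1 : ℝ) ≤ s := by exact_mod_cast (by omega : 1 ≤ s)
    have h1 : (N : ℝ) = H ^ 2 * s ^ 26 := by rw [hNr, hKr, hLr]; ring
    rw [h1, Real.log_mul (by positivity) (by positivity), Real.log_pow, Real.log_pow]
    have h2 : Real.log H ≤ H := (Real.log_le_sub_one_of_pos (by linarith)).trans (by linarith)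
    have h3 : Real.log s ≤ s := (Real.log_le_sub_one_of_pos (by linarith)).trans (by linarith)
    have h4 : (2 : ℕ) * H + 26 * s ≤ K := by
      rw [hK]
      have h5 := hs2le 12 (by norm_num)
      have h6 : s ^ 12 * 1 ≤ s ^ 12 * H := Nat.mul_le_mul_left _ hHpos
      have h7 : H * (s * 240) ≤ H * s ^ 12 := Nat.mul_le_mul_left _ h5
      have h8 : H * (240 * 240) ≤ H * (s * 240) :=
        Nat.mul_le_mul_left _ (Nat.mul_le_mul_right _ hs240)
      have h9 : 1 * (s * 240) ≤ H * (s * 240) := Nat.mul_le_mul_right _ hHpos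
      omega
    have h5 : (2 : ℝ) * H + 26 * s ≤ K := by exact_mod_cast h4
    push_cast
    linarith
  have hlm := Real.log_le_log (by positivity) hmain
  have hfac : Real.log (N.factorial : ℝ) ≤ N * Real.log N := by
    rw [← Real.log_pow]
    apply Real.log_le_log (by exact_mod_cast Nat.factorial_pos N)
    exact_mod_cast Nat.factorial_le_pow N
  have hfac0 : (0 : ℝ) < (N.factorial : ℝ) := by exact_mod_cast Nat.factorial_pos N
  rw [Real.log_pow, Real.log_mul (by positivity) (Real.exp_pos _).ne',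
    Real.log_mul hfac0.ne' (by positivity), Real.log_pow, Real.log_exp,
    Real.log_pow, Real.log_exp] at hlm
  have hKL1 : (K : ℝ) ≤ K * ρ := le_mul_of_one_le_right hK0.le hρ1
  have hKL2 : (K : ℝ) * Lg ≤ K * ρ := mul_le_mul_of_nonneg_left hLρ hK0.le
  -- divide by N
  have h1 : (N : ℝ) * ((K * σ) * Real.log r) ≤ N * (17 * (K * ρ)) := by
    have h2 : ((N * (K * σ) : ℕ) : ℝ) * Real.log r = N * ((K * σ) * Real.log r) := by
      push_cast; ring
    rw [← h2]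
    refine hlm.trans ?_
    have h3 : Real.log (N.factorial : ℝ) + N * ((2 : ℕ) * (K * Lg)) + N * E ≤
        N * (Real.log N + 2 * (K * Lg) + E) := by
      push_cast
      linarith
    refine h3.trans ?_
    apply mul_le_mul_of_nonneg_left _ hNpos.le
    linarith
  have h2 := le_of_mul_le_mul_left h1 hNpos
  have h3 : (K : ℝ) * (60 * ρ) * 0.69 ≤ (K * σ) * Real.log r := by
    apply mul_le_mul _ (hlog2.le.trans hlogr) (by norm_num) (by positivity)
    exact mul_le_mul_of_nonneg_left hσ1 hK0.le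
  have h4 : 0 < (K : ℝ) * ρ := by positivity
  nlinarith

end Pool.Agent.Work.MP_2738db_nt_Y.helper82
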