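import Pool.Agent.Work.MP_2738db_nt_Y.Interface5

/-!
Theorem Y, phase 5, block R3E: the `r`-part of `c ^ k = x ^ 4 + y ^ 4`.
-/

set_option autoImplicit false
set_option linter.unusedSectionVars false

namespace Pool.Agent.Work.MP_2738db_nt_Y.helper82

open Finset NumberField
open Pool.Agent.Work.MP_2738db_nt_A (HB)
open Pool.Agent.Work.MP_2738db_nt_Y

section
variable {K : Type} [Field K] [NumberField K]

theorem zeta_four {ζ : 𝓞 K} (hζ : IsPrimitiveRoot ζ 8) : ζ ^ 4 = -1 := by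
  have h8 : ζ ^ 8 = 1 := hζ.pow_eq_one
  have h4 : ζ ^ 4 ≠ 1 := hζ.pow_ne_one_of_pos_of_lt (by norm_num) (by norm_num)
  have h : (ζ ^ 4 - 1) * (ζ ^ 4 + 1) = 0 := by
    have : (ζ ^ 4 - 1) * (ζ ^ 4 + 1) = ζ ^ 8 - 1 := by ring
    rw [this, h8, sub_self]
  rcases mul_eq_zero.mp h with h | h
  · exact absurd (sub_eq_zero.mp h) h4
  · exact eq_neg_of_add_eq_zero_left h

theorem tau_zeta {ζ : 𝓞 K} (hζ : IsPrimitiveRoot ζ 8) {τ : 𝓞 K ≃+* 𝓞 K}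
    (hτ : IsConjugation K τ) : τ ζ = ζ ^ 7 := by
  obtain ⟨φ⟩ : Nonempty (K →+* ℂ) := inferInstance
  have hinj : Function.Injective (fun z : 𝓞 K => φ (z : K)) :=
    φ.injective.comp RingOfIntegers.coe_injective
  apply hinj
  show φ ((τ ζ : 𝓞 K) : K) = φ ((ζ ^ 7 : 𝓞 K) : K)
  rw [hτ φ ζ]
  have h8 : φ (ζ : K) ^ 8 = 1 := by
    rw [← map_pow]
    have : ((ζ : K)) ^ 8 = ((ζ ^ 8 : 𝓞 K) : K) := by simp
    rw [this, hζ.pow_eq_one]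
    simp
  have hn : ‖φ (ζ : K)‖ = 1 := by
    have h1 : ‖φ (ζ : K)‖ ^ 8 = 1 := by rw [← norm_pow, h8, norm_one]
    exact (pow_eq_one_iff_of_nonneg (norm_nonneg _) (by norm_num)).mp h1
  have hne : φ (ζ : K) ≠ 0 := by
    intro h
    rw [h, norm_zero] at hn
    exact zero_ne_one hn
  have e1 : starRingEnd ℂ (φ (ζ : K)) * φ (ζ : K) = 1 := by
    rw [mul_comm, Complex.mul_conj, Complex.normSq_eq_norm_sq, hn]
    norm_num
  have e2 : φ ((ζ ^ 7 : 𝓞 K) : K) * φ (ζ : K) = 1 := by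
    have : φ ((ζ ^ 7 : 𝓞 K) : K) = φ (ζ : K) ^ 7 := by simp
    rw [this, ← pow_succ, h8]
  exact mul_right_cancel₀ hne (e1.trans e2.symm)

theorem not_isUnit_nat {r : ℕ} (hr : 2 ≤ r) : ¬ IsUnit ((r : ℕ) : 𝓞 K) := by
  intro h
  have h1 : IsUnit (Algebra.norm ℤ ((r : ℕ) : 𝓞 K)) := h.map _
  have h2 : ((r : ℕ) : 𝓞 K) = algebraMap ℤ (𝓞 K) (r : ℤ) := by simp
  rw [h2, Algebra.norm_algebraMap] at h1
  have h3 : 0 < Module.finrank ℤ (𝓞 K) := Module.finrank_pos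
  have h4 : IsUnit ((r : ℤ)) := (isUnit_pow_iff h3.ne').mp h1
  rcases Int.isUnit_iff.mp h4 with h5 | h5 <;> omega

theorem exists_prime {r : ℕ} (hr : 2 ≤ r) :
    ∃ P : Ideal (𝓞 K), P.IsPrime ∧ P ≠ ⊥ ∧ ((r : ℕ) : 𝓞 K) ∈ P := by
  have h1 : Ideal.span {((r : ℕ) : 𝓞 K)} ≠ ⊤ := by
    intro h
    exact not_isUnit_nat hr (Ideal.span_singleton_eq_top.mp h)
  obtain ⟨P, hP, hle⟩ := Ideal.exists_le_maximal _ h1
  have hmem : ((r : ℕ) : 𝓞 K) ∈ P := hle (Ideal.subset_span (Set.mem_singleton _))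
  refine ⟨P, hP.isPrime, ?_, hmem⟩
  intro h
  rw [h, Ideal.mem_bot] at hmem
  have : r = 0 := by exact_mod_cast hmem
  omega

/-- powers of `ζ`, exponents modulo `8` -/
theorem zeta_mod {ζ : 𝓞 K} (hζ : IsPrimitiveRoot ζ 8) {a b : ℕ} (h : a % 8 = b % 8) :
    ζ ^ a = ζ ^ b := by
  rw [← Nat.mod_add_div a 8, ← Nat.mod_add_div b 8, pow_add, pow_add, pow_mul, pow_mul,
    hζ.pow_eq_one, one_pow, one_pow, h]

theorem zeta_four_odd {ζ : 𝓞 K} (hζ : IsPrimitiveRoot ζ 8) {j : ℕ} (hj : Odd j) :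
    ζ ^ (4 * j) = -1 := by
  rw [pow_mul, zeta_four hζ, hj.neg_one_pow]

theorem zeta_notMem {ζ : 𝓞 K} (hζ : IsPrimitiveRoot ζ 8) {P : Ideal (𝓞 K)} (hP : P.IsPrime)
    (j : ℕ) : ζ ^ j ∉ P := by
  intro h
  have h1 : ζ ∈ P := hP.mem_of_pow_mem _ h
  have h2 : ζ ^ 8 ∈ P := Ideal.pow_mem_of_mem P h1 8 (by norm_num)
  rw [hζ.pow_eq_one] at h2
  exact hP.ne_top ((Ideal.eq_top_iff_one P).mpr h2)

/-- differences of different odd powers are not in `P` if `2 ∉ P` -/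
theorem diff_notMem {ζ : 𝓞 K} (hζ : IsPrimitiveRoot ζ 8) {P : Ideal (𝓞 K)} (hP : P.IsPrime)
    (h2 : (2 : 𝓞 K) ∉ P) {a b : ℕ} (ha : a = 1 ∨ a = 3 ∨ a = 5 ∨ a = 7)
    (hb : b = 1 ∨ b = 3 ∨ b = 5 ∨ b = 7) (hab : a ≠ b) : ζ ^ a - ζ ^ b ∉ P := by
  have h4 := zeta_four hζ
  intro h
  apply h2
  -- (ζ^a - ζ^b) ∣ 2 ζ^t
  have key : ∃ m : 𝓞 K, ∃ t : ℕ, m * (ζ ^ a - ζ ^ b) = ζ ^ t * 2 := by
    rcases ha with rfl | rfl | rfl | rfl <;> rcases hb with rfl | rfl | rfl | rfl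
    all_goals first
      | exact absurd rfl hab
      | skip
    · exact ⟨ζ + ζ ^ 3, 2, by linear_combination (-ζ ^ 2) * h4⟩
    · exact ⟨1, 1, by linear_combination (-ζ) * h4⟩
    · exact ⟨ζ - ζ ^ 3, 2, by linear_combination (-ζ ^ 4 + ζ ^ 6 - ζ ^ 2) * h4⟩
    · exact ⟨-(ζ + ζ ^ 3), 2, by linear_combination (-ζ ^ 2) * h4⟩
    · exact ⟨ζ - ζ ^ 3, 2, by linear_combination (-2 * ζ ^ 2 + ζ ^ 4) * h4⟩
    · exact ⟨1, 3, by linear_combination (-ζ ^ 3) * h4⟩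
    · exact ⟨-1, 1, by linear_combination (-ζ) * h4⟩
    · exact ⟨-(ζ - ζ ^ 3), 2, by linear_combination (ζ ^ 4 - 2 * ζ ^ 2) * h4⟩
    · exact ⟨-(ζ + ζ ^ 3), 2, by linear_combination (ζ ^ 6 - 2 * ζ ^ 2) * h4⟩
    · exact ⟨-(ζ - ζ ^ 3), 2, by linear_combination (ζ ^ 6 - ζ ^ 4 - ζ ^ 2) * h4⟩
    · exact ⟨-1, 3, by linear_combination (-ζ ^ 3) * h4⟩
    · exact ⟨ζ + ζ ^ 3, 2, by linear_combination (ζ ^ 6 - 2 * ζ ^ 2) * h4⟩
  obtain ⟨m, t, hm⟩ := key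
  have h5 : ζ ^ t * 2 ∈ P := by
    rw [← hm]
    exact Ideal.mul_mem_left _ _ h
  rcases hP.mem_or_mem h5 with h6 | h6
  · exact absurd h6 (zeta_notMem hζ hP t)
  · exact h6

/-- one factor lies in `P ^ m` -/
theorem exists_factor {ζ : 𝓞 K} (hζ : IsPrimitiveRoot ζ 8) {P : Ideal (𝓞 K)} (hP : P.IsPrime)
    (h2 : (2 : 𝓞 K) ∉ P) {x y : 𝓞 K} (hy : y ∉ P) {m : ℕ}
    (h : x ^ 4 + y ^ 4 ∈ P ^ m) :
    ∃ j : ℕ, (j = 1 ∨ j = 3 ∨ j = 5 ∨ j = 7) ∧ x - ζ ^ j * y ∈ P ^ m := by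
  have h4 := zeta_four hζ
  have hprod : (x - ζ ^ 1 * y) * ((x - ζ ^ 3 * y) * ((x - ζ ^ 5 * y) * (x - ζ ^ 7 * y))) =
      x ^ 4 + y ^ 4 := by
    have e5 : ζ ^ 5 = -ζ := by linear_combination ζ * h4
    have e7 : ζ ^ 7 = -ζ ^ 3 := by linear_combination ζ ^ 3 * h4
    rw [e5, e7]
    linear_combination (-(x ^ 2 * y ^ 2 * ζ ^ 2) + y ^ 4 * (ζ ^ 4 - 1)) * h4
  rw [← hprod] at h
  have hdiff : ∀ a b : ℕ, (a = 1 ∨ a = 3 ∨ a = 5 ∨ a = 7) → (b = 1 ∨ b = 3 ∨ b = 5 ∨ b = 7) →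
      a ≠ b → x - ζ ^ a * y ∈ P → x - ζ ^ b * y ∉ P := by
    intro a b ha hb hab h5 h6
    have h7 : (ζ ^ a - ζ ^ b) * y ∈ P := by
      have := P.sub_mem h6 h5
      have e : x - ζ ^ b * y - (x - ζ ^ a * y) = (ζ ^ a - ζ ^ b) * y := by ring
      rwa [e] at this
    rcases hP.mem_or_mem h7 with h8 | h8
    · exact diff_notMem hζ hP h2 ha hb hab h8
    · exact hy h8
  have := hP
  by_cases c1 : x - ζ ^ 1 * y ∈ P
  · refine ⟨1, Or.inl rfl, ?_⟩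
    have d3 := hdiff 1 3 (by simp) (by simp) (by norm_num) c1
    have d5 := hdiff 1 5 (by simp) (by simp) (by norm_num) c1
    have d7 := hdiff 1 7 (by simp) (by simp) (by norm_num) c1
    rw [mul_comm] at h
    refine (Ideal.IsPrime.mul_mem_pow P h).resolve_left ?_
    intro h9
    rcases hP.mem_or_mem h9 with h9 | h9
    · exact d3 h9
    rcases hP.mem_or_mem h9 with h9 | h9
    · exact d5 h9
    · exact d7 h9
  replace h := (Ideal.IsPrime.mul_mem_pow P h).resolve_left c1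
  by_cases c3 : x - ζ ^ 3 * y ∈ P
  · refine ⟨3, by simp, ?_⟩
    have d5 := hdiff 3 5 (by simp) (by simp) (by norm_num) c3
    have d7 := hdiff 3 7 (by simp) (by simp) (by norm_num) c3
    rw [mul_comm] at h
    refine (Ideal.IsPrime.mul_mem_pow P h).resolve_left ?_
    intro h9
    rcases hP.mem_or_mem h9 with h9 | h9
    · exact d5 h9
    · exact d7 h9
  replace h := (Ideal.IsPrime.mul_mem_pow P h).resolve_left c3
  by_cases c5 : x - ζ ^ 5 * y ∈ P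
  · refine ⟨5, by simp, ?_⟩
    have d7 := hdiff 5 7 (by simp) (by simp) (by norm_num) c5
    rw [mul_comm] at h
    exact (Ideal.IsPrime.mul_mem_pow P h).resolve_left d7
  replace h := (Ideal.IsPrime.mul_mem_pow P h).resolve_left c5
  exact ⟨7, by simp, h⟩

theorem HB_mono {z : 𝓞 K} {a b : ℝ} (h : HB K z a) (hab : a ≤ b) : HB K z b :=
  fun v => (h v).trans (Real.exp_le_exp.mpr hab)

theorem abs_zeta_pow {ζ : 𝓞 K} (hζ : IsPrimitiveRoot ζ 8) (v : InfinitePlace K) (j : ℕ) :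
    v ((ζ ^ j : 𝓞 K) : K) = 1 := by
  have h1 : v ((ζ : K)) ^ 8 = 1 := by
    rw [← map_pow]
    have : ((ζ : K)) ^ 8 = ((ζ ^ 8 : 𝓞 K) : K) := by simp
    rw [this, hζ.pow_eq_one]
    simp
  have h2 : v ((ζ : K)) = 1 :=
    (pow_eq_one_iff_of_nonneg (apply_nonneg _ _) (by norm_num)).mp h1
  have h3 : ((ζ ^ j : 𝓞 K) : K) = (ζ : K) ^ j := by simp
  rw [h3, map_pow, h2, one_pow]

theorem HB_kappa {w : 𝓞 K} (hw : ∀ v : InfinitePlace K, v (w : K) ≤ 2) {s : ℕ} {S : ℝ}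
    (hs : (s : ℝ) ≤ S) : HB K (w ^ s) S := by
  intro v
  have h1 : ((w ^ s : 𝓞 K) : K) = (w : K) ^ s := by simp
  rw [h1, map_pow]
  have h2 : v (w : K) ^ s ≤ 2 ^ s := pow_le_pow_left₀ (apply_nonneg _ _) (hw v) s
  have h3 : (2 : ℝ) ^ s ≤ Real.exp s := by
    have : (2 : ℝ) ≤ Real.exp 1 := by
      have := Real.add_one_le_exp (1 : ℝ)
      linarith
    calc (2 : ℝ) ^ s ≤ (Real.exp 1) ^ s := pow_le_pow_left₀ (by norm_num) this s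
      _ = Real.exp s := by rw [← Real.exp_nat_mul, mul_one]
  exact (h2.trans h3).trans (Real.exp_le_exp.mpr hs)

theorem place_sub_le {a b : 𝓞 K} (v : InfinitePlace K) (ha : v (a : K) ≤ 1) (hb : v (b : K) ≤ 1) :
    v ((a - b : 𝓞 K) : K) ≤ 2 := by
  have h1 : ((a - b : 𝓞 K) : K) = (a : K) - (b : K) := by simp
  rw [h1, ← InfinitePlace.norm_embedding_eq, map_sub]
  rw [← InfinitePlace.norm_embedding_eq] at ha hb
  exact (norm_sub_le _ _).trans (by linarith)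

theorem not_two_dvd {x y c k : ℕ} (hxy : Nat.Coprime x y) (hk : 2 ≤ k)
    (h : x ^ 4 + y ^ 4 = c ^ k) : ¬ 2 ∣ c := by
  rintro ⟨d, rfl⟩
  have h4 : 4 ∣ (2 * d) ^ k := by
    obtain ⟨t, rfl⟩ := Nat.exists_eq_add_of_le hk
    exact ⟨d ^ 2 * (2 * d) ^ t, by rw [pow_add]; ring⟩
  rw [← h] at h4
  have hx : x % 4 = 0 ∨ x % 4 = 1 ∨ x % 4 = 2 ∨ x % 4 = 3 := by omega
  have hy : y % 4 = 0 ∨ y % 4 = 1 ∨ y % 4 = 2 ∨ y % 4 = 3 := by omega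
  have hev : ¬ (2 ∣ x ∧ 2 ∣ y) := by
    rintro ⟨h1, h2⟩
    have := Nat.dvd_gcd h1 h2
    rw [hxy] at this
    omega
  have hmod : (x ^ 4 + y ^ 4) % 4 = 0 := Nat.mod_eq_zero_of_dvd h4
  rw [Nat.add_mod, Nat.pow_mod x, Nat.pow_mod y] at hmod
  rcases hx with hx | hx | hx | hx <;> rcases hy with hy | hy | hy | hy <;>
    rw [hx, hy] at hmod <;> first | (exact hev ⟨by omega, by omega⟩) | omega

end

/-- **R3E** -/
theorem r3e : Stmt_Cyd → Stmt_Kuq → Stmt_Rg → Stmt_R3e := by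
  intro hcyd hkuq hrg r hr
  obtain ⟨K, _, _, ζ, τ, hζ, hτ, hfin, hdisc⟩ := hcyd 8 (Or.inr (Or.inr rfl))
  obtain ⟨S, hS1, hkuq⟩ := hkuq
  obtain ⟨P, hP, hP0, hrP⟩ := exists_prime (K := K) hr.two_le
  obtain ⟨C1, hC1, hrg⟩ := hrg K P S hP hP0 hS1
  refine ⟨2 * C1 * S + 2 * C1, by nlinarith, ?_⟩
  intro x y c k hx hy hxy hk hc hrc hE
  rw [one_mul] at hE
  have hEN : x ^ 4 + y ^ 4 = c ^ k := by exact_mod_cast hE
  have hEK : ((x : ℕ) : 𝓞 K) ^ 4 + ((y : ℕ) : 𝓞 K) ^ 4 = ((c : ℕ) : 𝓞 K) ^ k := by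
    exact_mod_cast congrArg (Nat.cast : ℕ → 𝓞 K) hEN
  have hr2 : r ≠ 2 := by
    rintro rfl
    exact not_two_dvd hxy hk hEN hrc
  have h1P : (1 : 𝓞 K) ∉ P := fun h => hP.ne_top ((Ideal.eq_top_iff_one P).mpr h)
  have h2P : (2 : 𝓞 K) ∉ P := by
    intro h
    have hodd : Odd r := hr.odd_of_ne_two hr2
    obtain ⟨t, ht⟩ := hodd
    apply h1P
    have h3 : ((r : ℕ) : 𝓞 K) - (t : 𝓞 K) * 2 ∈ P := P.sub_mem hrP (P.mul_mem_left _ h)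
    have h4 : ((r : ℕ) : 𝓞 K) - (t : 𝓞 K) * 2 = 1 := by rw [ht]; push_cast; ring
    rwa [h4] at h3
  have hcP : ((c : ℕ) : 𝓞 K) ∈ P := by
    obtain ⟨d, hd⟩ := hrc
    rw [hd]; push_cast
    exact P.mul_mem_right _ hrP
  have hyP : ((y : ℕ) : 𝓞 K) ∉ P := by
    intro h
    have h5 : ((x : ℕ) : 𝓞 K) ^ 4 ∈ P := by
      have h6 : ((c : ℕ) : 𝓞 K) ^ k ∈ P := Ideal.pow_mem_of_mem P hcP k (by omega)
      have h7 : ((y : ℕ) : 𝓞 K) ^ 4 ∈ P := Ideal.pow_mem_of_mem P h 4 (by norm_num)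
      have h8 := P.sub_mem h6 h7
      rwa [← hEK, add_sub_cancel_right] at h8
    have h6 : ((x : ℕ) : 𝓞 K) ∈ P := hP.mem_of_pow_mem _ h5
    have h7 : IsCoprime (x : ℤ) (y : ℤ) := Nat.isCoprime_iff_coprime.mpr hxy
    obtain ⟨a, b, hab⟩ := h7
    apply h1P
    have h8 : ((a : ℤ) : 𝓞 K) * ((x : ℕ) : 𝓞 K) + ((b : ℤ) : 𝓞 K) * ((y : ℕ) : 𝓞 K) ∈ P :=
      P.add_mem (P.mul_mem_left _ h6) (P.mul_mem_left _ h)
    have h9 : ((a : ℤ) : 𝓞 K) * ((x : ℕ) : 𝓞 K) + ((b : ℤ) : 𝓞 K) * ((y : ℕ) : 𝓞 K) = 1 := by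
      exact_mod_cast congrArg (Int.cast : ℤ → 𝓞 K) hab
    rwa [h9] at h8
  have : Fact r.Prime := ⟨hr⟩
  have hv1 : 1 ≤ padicValNat r c := one_le_padicValNat_of_dvd (by omega) hrc
  have hM1 : 1 ≤ k * padicValNat r c := Nat.one_le_iff_ne_zero.mpr (by positivity)
  have hcM : ((x : ℕ) : 𝓞 K) ^ 4 + ((y : ℕ) : 𝓞 K) ^ 4 ∈ P ^ (k * padicValNat r c) := by
    rw [hEK, mul_comm, pow_mul]
    refine Ideal.pow_mem_pow ?_ k
    obtain ⟨d, hd⟩ : r ^ padicValNat r c ∣ c := pow_padicValNat_dvd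
    have h5 : ((c : ℕ) : 𝓞 K) = ((r : ℕ) : 𝓞 K) ^ padicValNat r c * ((d : ℕ) : 𝓞 K) := by
      exact_mod_cast congrArg (Nat.cast : ℕ → 𝓞 K) hd
    rw [h5]
    exact Ideal.mul_mem_right _ _ (Ideal.pow_mem_pow hrP _)
  obtain ⟨j0, hj0, hfac⟩ := exists_factor hζ hP h2P hyP hcM
  have hodd : Odd j0 := by
    rcases hj0 with rfl | rfl | rfl | rfl <;> decide
  have hfacP : ((x : ℕ) : 𝓞 K) - ζ ^ j0 * ((y : ℕ) : 𝓞 K) ∈ P :=
    Ideal.pow_le_self (by omega) hfac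
  have hodd3 : Odd (3 * j0) := (by decide : Odd 3).mul hodd
  obtain ⟨s, α, hs1, hsS, hα, hτα, hrel, hPα, hPτα⟩ :=
    hkuq K ζ τ (x : ℤ) (y : ℤ) c k (3 * j0) hζ hτ (by exact_mod_cast hfin)
      (by refine hdisc.trans ?_; norm_num) (Nat.isCoprime_iff_coprime.mpr hxy) hc hk hE hodd3
  simp only [Int.cast_natCast] at hrel hPα hPτα
  have h4j : ζ ^ (4 * j0) = -1 := zeta_four_odd hζ hodd
  have hτz : τ (ζ ^ (3 * j0)) = -ζ ^ j0 := by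
    rw [map_pow, tau_zeta hζ hτ, ← pow_mul]
    have : 7 * (3 * j0) = j0 + 5 * (4 * j0) := by ring
    rw [this, pow_add, mul_comm 5 (4 * j0), pow_mul, h4j]
    ring
  rw [hτz] at hrel hPτα
  -- the two numbers
  have hw1 : (ζ ^ j0 - ζ ^ (3 * j0)) ^ 2 = 2 := by
    have e1 : (ζ ^ j0 - ζ ^ (3 * j0)) ^ 2 =
        ζ ^ (2 * j0) - 2 * ζ ^ (4 * j0) + ζ ^ (2 * j0) * ζ ^ (4 * j0) := by
      rw [sub_sq, ← pow_add, ← pow_mul, ← pow_mul]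
      have a1 : j0 * 2 = 2 * j0 := by ring
      have a2 : 3 * j0 * 2 = 2 * j0 + 4 * j0 := by ring
      have a3 : 2 * ζ ^ j0 * ζ ^ (3 * j0) = 2 * ζ ^ (4 * j0) := by
        rw [mul_assoc, ← pow_add]; congr 2; ring
      rw [a1, a2, a3]
    rw [e1, h4j]; ring
  have hw1P : ζ ^ j0 - ζ ^ (3 * j0) ∉ P := by
    intro h
    have := Ideal.pow_mem_of_mem P h 2 (by norm_num)
    rw [hw1] at this
    exact h2P this
  have hw2P : ζ ^ j0 - (-ζ ^ j0) ∉ P := by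
    intro h
    have e : ζ ^ j0 - (-ζ ^ j0) = ζ ^ j0 * 2 := by ring
    rw [e] at h
    rcases hP.mem_or_mem h with h | h
    · exact zeta_notMem hζ hP _ h
    · exact h2P h
  have hαP : α ∉ P := by
    intro h
    have h5 := (hPα P hP h).1
    have h6 := P.sub_mem h5 hfacP
    have e : ((x : ℕ) : 𝓞 K) - ζ ^ (3 * j0) * ((y : ℕ) : 𝓞 K) -
        (((x : ℕ) : 𝓞 K) - ζ ^ j0 * ((y : ℕ) : 𝓞 K)) =
        (ζ ^ j0 - ζ ^ (3 * j0)) * ((y : ℕ) : 𝓞 K) := by ring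
    rw [e] at h6
    rcases hP.mem_or_mem h6 with h7 | h7
    · exact hw1P h7
    · exact hyP h7
  have hταP : τ α ∉ P := by
    intro h
    have h5 := (hPτα P hP h).1
    have h6 := P.sub_mem h5 hfacP
    have e : ((x : ℕ) : 𝓞 K) - (-ζ ^ j0) * ((y : ℕ) : 𝓞 K) -
        (((x : ℕ) : 𝓞 K) - ζ ^ j0 * ((y : ℕ) : 𝓞 K)) =
        (ζ ^ j0 - (-ζ ^ j0)) * ((y : ℕ) : 𝓞 K) := by ring
    rw [e] at h6
    rcases hP.mem_or_mem h6 with h7 | h7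
    · exact hw2P h7
    · exact hyP h7
  -- the congruence
  have hcong : (ζ ^ j0 - ζ ^ (3 * j0)) ^ s * (τ α) ^ k - (ζ ^ j0 - (-ζ ^ j0)) ^ s * α ^ k ∈
      P ^ (k * padicValNat r c) := by
    have hd1 : (((x : ℕ) : 𝓞 K) - ζ ^ (3 * j0) * ((y : ℕ) : 𝓞 K)) ^ s -
        ((ζ ^ j0 - ζ ^ (3 * j0)) * ((y : ℕ) : 𝓞 K)) ^ s ∈ P ^ (k * padicValNat r c) := by
      refine Ideal.mem_of_dvd _ (sub_dvd_pow_sub_pow _ _ s) ?_
      have e : ((x : ℕ) : 𝓞 K) - ζ ^ (3 * j0) * ((y : ℕ) : 𝓞 K) -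
          (ζ ^ j0 - ζ ^ (3 * j0)) * ((y : ℕ) : 𝓞 K) =
          ((x : ℕ) : 𝓞 K) - ζ ^ j0 * ((y : ℕ) : 𝓞 K) := by ring
      rw [e]; exact hfac
    have hd2 : (((x : ℕ) : 𝓞 K) - (-ζ ^ j0) * ((y : ℕ) : 𝓞 K)) ^ s -
        ((ζ ^ j0 - (-ζ ^ j0)) * ((y : ℕ) : 𝓞 K)) ^ s ∈ P ^ (k * padicValNat r c) := by
      refine Ideal.mem_of_dvd _ (sub_dvd_pow_sub_pow _ _ s) ?_
      have e : ((x : ℕ) : 𝓞 K) - (-ζ ^ j0) * ((y : ℕ) : 𝓞 K) -
          (ζ ^ j0 - (-ζ ^ j0)) * ((y : ℕ) : 𝓞 K) =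
          ((x : ℕ) : 𝓞 K) - ζ ^ j0 * ((y : ℕ) : 𝓞 K) := by ring
      rw [e]; exact hfac
    have hd3 := Ideal.sub_mem _ (Ideal.mul_mem_right (α ^ k) _ hd2)
      (Ideal.mul_mem_right ((τ α) ^ k) _ hd1)
    have e : ((((x : ℕ) : 𝓞 K) - (-ζ ^ j0) * ((y : ℕ) : 𝓞 K)) ^ s -
        ((ζ ^ j0 - (-ζ ^ j0)) * ((y : ℕ) : 𝓞 K)) ^ s) * α ^ k -
        ((((x : ℕ) : 𝓞 K) - ζ ^ (3 * j0) * ((y : ℕ) : 𝓞 K)) ^ s -
        ((ζ ^ j0 - ζ ^ (3 * j0)) * ((y : ℕ) : 𝓞 K)) ^ s) * (τ α) ^ k =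
        ((y : ℕ) : 𝓞 K) ^ s * ((ζ ^ j0 - ζ ^ (3 * j0)) ^ s * (τ α) ^ k -
          (ζ ^ j0 - (-ζ ^ j0)) ^ s * α ^ k) := by
      rw [mul_pow, mul_pow]
      linear_combination -hrel
    rw [e] at hd3
    have := hP
    exact (Ideal.IsPrime.mul_mem_pow P hd3).resolve_left
      (fun h => hyP (hP.mem_of_pow_mem _ h))
  -- heights
  have hb1 : HB K ((ζ ^ j0 - ζ ^ (3 * j0)) ^ s) S := by
    refine HB_kappa (fun v => place_sub_le v ?_ ?_) hsS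
    · exact (abs_zeta_pow hζ v _).le
    · exact (abs_zeta_pow hζ v _).le
  have hb2 : HB K ((ζ ^ j0 - (-ζ ^ j0)) ^ s) S := by
    refine HB_kappa (fun v => place_sub_le v ?_ ?_) hsS
    · exact (abs_zeta_pow hζ v _).le
    · have : ((-ζ ^ j0 : 𝓞 K) : K) = ((ζ ^ (j0 + 4) : 𝓞 K) : K) := by
        rw [pow_add, zeta_four hζ]; simp
      rw [this]
      exact (abs_zeta_pow hζ v _).le
  have hnt : ∀ i : ℕ, 1 ≤ i →
      ((ζ ^ j0 - ζ ^ (3 * j0)) ^ s) ^ i ≠ ((ζ ^ j0 - (-ζ ^ j0)) ^ s) ^ i := by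
    intro i hi h
    have e1 : (((ζ ^ j0 - ζ ^ (3 * j0)) ^ s) ^ i) ^ 8 = 2 ^ (4 * (s * i)) := by
      rw [← pow_mul, ← pow_mul]
      have : s * (i * 8) = 2 * (4 * (s * i)) := by ring
      rw [this, pow_mul, hw1]
    have e2 : (((ζ ^ j0 - (-ζ ^ j0)) ^ s) ^ i) ^ 8 = 2 ^ (8 * (s * i)) := by
      have a1 : ζ ^ j0 - (-ζ ^ j0) = ζ ^ j0 * 2 := by ring
      rw [a1, ← pow_mul, ← pow_mul, mul_pow, ← pow_mul]
      have a2 : j0 * (s * (i * 8)) = 8 * (j0 * (s * i)) := by ring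
      rw [a2, pow_mul, hζ.pow_eq_one, one_pow, one_mul]
      congr 1; ring
    rw [h, e2] at e1
    have e3 : (2 : ℕ) ^ (8 * (s * i)) = 2 ^ (4 * (s * i)) := by exact_mod_cast e1
    have e4 := Nat.pow_right_injective (le_refl 2) e3
    have : 1 ≤ s * i := Nat.one_le_iff_ne_zero.mpr (by positivity)
    omega
  -- logarithms
  have hl2 : (1 : ℝ) / 2 ≤ Real.log 2 := by
    have := Real.log_two_gt_d9
    linarith
  have hlc : Real.log 2 ≤ Real.log c :=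
    Real.log_le_log (by norm_num) (by exact_mod_cast hc)
  have hlc0 : 0 < Real.log c := by linarith
  have hlk : 0 ≤ Real.log k := Real.log_natCast_nonneg k
  have hA1 : 1 ≤ 2 * S * Real.log c := by nlinarith
  have hAle : S * Real.log c ≤ 2 * S * Real.log c := by nlinarith
  have hsq : 1 ≤ (1 + Real.log k) ^ 2 := by nlinarith
  have hfinal := hrg ((ζ ^ j0 - ζ ^ (3 * j0)) ^ s) ((ζ ^ j0 - (-ζ ^ j0)) ^ s) (τ α) α k
    (k * padicValNat r c) (2 * S * Real.log c) (fun h => hw1P (hP.mem_of_pow_mem _ h))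
    (fun h => hw2P (hP.mem_of_pow_mem _ h)) hταP hαP (by omega) hA1 hb1 hb2
    (HB_mono hτα hAle) (HB_mono hα hAle) (Or.inl hnt) hcong
  push_cast at hfinal
  rcases hfinal with h | h
  · refine h.trans ?_
    have h5 : C1 * (2 * S * Real.log c) * (1 + Real.log k) ^ 2 +
        2 * C1 * Real.log c * (1 + Real.log k) ^ 2 =
        (2 * C1 * S + 2 * C1) * Real.log c * (1 + Real.log k) ^ 2 := by ring
    rw [← h5]
    have : 0 ≤ 2 * C1 * Real.log c * (1 + Real.log k) ^ 2 := by positivity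
    linarith
  · have hv : (padicValNat r c : ℝ) ≤ 2 * Real.log c := by
      have h5 : (r : ℝ) ^ padicValNat r c ≤ c := by
        exact_mod_cast Nat.le_of_dvd (by omega) pow_padicValNat_dvd
      have h6 : (padicValNat r c : ℝ) * Real.log r ≤ Real.log c := by
        rw [← Real.log_pow]
        exact Real.log_le_log (by have := hr.pos; positivity) h5
      have h7 : Real.log 2 ≤ Real.log r :=
        Real.log_le_log (by norm_num) (by exact_mod_cast hr.two_le)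
      have h8 : (0 : ℝ) ≤ (padicValNat r c : ℝ) := Nat.cast_nonneg _
      nlinarith
    have h6 : (k : ℝ) * (padicValNat r c : ℝ) ≤ C1 * (2 * Real.log c) :=
      mul_le_mul h hv (Nat.cast_nonneg _) (by linarith)
    refine h6.trans ?_
    have h7 : C1 * (2 * Real.log c) * 1 ≤ C1 * (2 * Real.log c) * (1 + Real.log k) ^ 2 :=
      mul_le_mul_of_nonneg_left hsq (by positivity)
    have h8 : 0 ≤ 2 * C1 * S * Real.log c * (1 + Real.log k) ^ 2 := by positivity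
    nlinarith

end Pool.Agent.Work.MP_2738db_nt_Y.helper82
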